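import Mathlib
import Pool.Agent.H68.AH.Defs

/-!
# MP_103a5c_AH: the cells exist
-/

open MeasureTheory Set Filter Topology
open scoped Real ContDiff

namespace Pool.Agent.H29.AH

open Pool.Agent.H68.AH

/-- smooth bump supported in `(α, β)`, equal to one on `[α+τ, β-τ]` -/
noncomputable def bp (α β τ t : ℝ) : ℝ := Real.smoothTransition ((t - α) / τ) * Real.smoothTransition ((β - t) / τ)

lemma bp_contDiff (α β τ : ℝ) : ContDiff ℝ ∞ (bp α β τ) := by
  unfold bp
  exact (Real.smoothTransition.contDiff.comp ((contDiff_id.sub contDiff_const).div_const _)).mul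
    (Real.smoothTransition.contDiff.comp ((contDiff_const.sub contDiff_id).div_const _))

lemma bp_nonneg (α β τ t : ℝ) : 0 ≤ bp α β τ t :=
  mul_nonneg (Real.smoothTransition.nonneg _) (Real.smoothTransition.nonneg _)

lemma bp_le_one (α β τ t : ℝ) : bp α β τ t ≤ 1 :=
  mul_le_one₀ (Real.smoothTransition.le_one _) (Real.smoothTransition.nonneg _) (Real.smoothTransition.le_one _)

lemma bp_low {α β τ t : ℝ} (hτ : 0 < τ) (h : t ≤ α) : bp α β τ t = 0 := by
  unfold bp
  rw [Real.smoothTransition.zero_of_nonpos (div_nonpos_of_nonpos_of_nonneg (by linarith) hτ.le), zero_mul]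

lemma bp_high {α β τ t : ℝ} (hτ : 0 < τ) (h : β ≤ t) : bp α β τ t = 0 := by
  unfold bp
  rw [Real.smoothTransition.zero_of_nonpos (x := (β - t) / τ) (div_nonpos_of_nonpos_of_nonneg (by linarith) hτ.le),
    mul_zero]

lemma bp_one {α β τ t : ℝ} (hτ : 0 < τ) (h1 : α + τ ≤ t) (h2 : t ≤ β - τ) : bp α β τ t = 1 := by
  unfold bp
  rw [Real.smoothTransition.one_of_one_le ((le_div_iff₀ hτ).2 (by linarith)),
    Real.smoothTransition.one_of_one_le ((le_div_iff₀ hτ).2 (by linarith)), mul_one]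

lemma bp_supp {α β τ : ℝ} (hτ : 0 < τ) (n : ℕ) (hn : n ≠ 0) :
    Function.support (fun t => bp α β τ t ^ n) ⊆ Icc α β := by
  intro t ht
  rw [Function.mem_support] at ht
  constructor
  · by_contra h
    exact ht (by rw [bp_low hτ (not_le.1 h).le, zero_pow hn])
  · by_contra h
    exact ht (by rw [bp_high hτ (not_le.1 h).le, zero_pow hn])

lemma bp_int {α β τ : ℝ} (hτ : 0 < τ) (hab : α ≤ β) (hab' : 2 * τ ≤ β - α) (n : ℕ) (hn : n ≠ 0) :
    β - α - 2 * τ ≤ ∫ t, bp α β τ t ^ n ∧ ∫ t, bp α β τ t ^ n ≤ β - α := by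
  have hc : Continuous (fun t => bp α β τ t ^ n) := (bp_contDiff α β τ).continuous.pow n
  have e : ∫ t, bp α β τ t ^ n = ∫ t in Icc α β, bp α β τ t ^ n :=
    (setIntegral_eq_integral_of_forall_compl_eq_zero fun t ht => by
      by_contra h
      exact ht (bp_supp hτ n hn h)).symm
  have hi : IntegrableOn (fun t => bp α β τ t ^ n) (Icc α β) := hc.continuousOn.integrableOn_Icc
  rw [e]
  constructor
  · have h1 : ∫ t in Icc (α + τ) (β - τ), (1 : ℝ) ≤ ∫ t in Icc α β, bp α β τ t ^ n := by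
      have h2 : ∫ t in Icc (α + τ) (β - τ), (1 : ℝ) = ∫ t in Icc (α + τ) (β - τ), bp α β τ t ^ n := by
        refine setIntegral_congr_fun measurableSet_Icc fun t ht => ?_
        show (1 : ℝ) = bp α β τ t ^ n
        rw [bp_one hτ ht.1 ht.2, one_pow]
      rw [h2]
      refine setIntegral_mono_set hi (Eventually.of_forall fun t => pow_nonneg (bp_nonneg _ _ _ _) _) ?_
      exact (Icc_subset_Icc (by linarith) (by linarith)).eventuallyLE
    refine le_trans (le_of_eq ?_) h1
    rw [setIntegral_const, smul_eq_mul, mul_one, Real.volume_real_Icc_of_le (by linarith)]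
    ring
  · have h1 : ∫ t in Icc α β, bp α β τ t ^ n ≤ ∫ t in Icc α β, (1 : ℝ) := by
      refine setIntegral_mono hi (by simp) fun t => pow_le_one₀ (bp_nonneg _ _ _ _) (bp_le_one _ _ _ _)
    refine h1.trans (le_of_eq ?_)
    rw [setIntegral_const, smul_eq_mul, mul_one, Real.volume_real_Icc_of_le hab]

/-- the normalised profile in the variable `t = M x` -/
noncomputable def ga (α β τ t : ℝ) : ℝ := bp α β τ t / Real.sqrt (∫ s, bp α β τ s ^ 2)

/-- the cell function -/
noncomputable def cl (M j : ℕ) (α β τ x : ℝ) : ℝ := Real.sqrt (M * x / j) * ga α β τ (M * x)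

lemma cl_smooth (M j : ℕ) {α β τ : ℝ} (hM : 0 < M) (hj : 0 < j) (hα : 0 < α) (hτ : 0 < τ) : ContDiff ℝ ∞ (cl M j α β τ) := by
  have hMr : (0 : ℝ) < M := by exact_mod_cast hM
  have hjr : (0 : ℝ) < j := by exact_mod_cast hj
  have hga : ContDiff ℝ ∞ (fun x : ℝ => ga α β τ (M * x)) := by
    unfold ga
    exact ((bp_contDiff α β τ).comp (contDiff_const.mul contDiff_id)).div_const _
  rw [contDiff_iff_contDiffAt]
  intro x
  rcases le_or_gt x (α / (2 * M)) with hx | hx
  · have h1 : cl M j α β τ =ᶠ[𝓝 x] fun _ => 0 := by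
      have h2 : ∀ᶠ y in 𝓝 x, y < α / M := by
        refine Iio_mem_nhds (hx.trans_lt ?_)
        rw [div_lt_div_iff₀ (by positivity) hMr]
        nlinarith
      filter_upwards [h2] with y hy
      unfold cl ga
      rw [lt_div_iff₀ hMr] at hy
      rw [bp_low hτ (by linarith), zero_div, mul_zero]
    exact contDiffAt_const.congr_of_eventuallyEq h1
  · have hx0 : 0 < x := lt_trans (by positivity) hx
    unfold cl
    refine ContDiffAt.mul ?_ hga.contDiffAt
    refine ContDiffAt.sqrt ?_ (by positivity)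
    exact ((contDiff_const.mul contDiff_id).div_const _).contDiffAt

lemma cl_nonneg (M j : ℕ) (α β τ x : ℝ) : 0 ≤ cl M j α β τ x := by
  unfold cl ga
  exact mul_nonneg (Real.sqrt_nonneg _) (div_nonneg (bp_nonneg _ _ _ _) (Real.sqrt_nonneg _))

lemma cl_supp (M j : ℕ) {α β τ x : ℝ} (hM : 0 < M) (hτ : 0 < τ) (h : cl M j α β τ x ≠ 0) : α / M < x ∧ x < β / M := by
  have hMr : (0 : ℝ) < M := by exact_mod_cast hM
  unfold cl ga at h
  constructor
  · by_contra h1
    apply h
    rw [not_lt, le_div_iff₀ hMr] at h1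
    rw [bp_low hτ (by linarith), zero_div, mul_zero]
  · by_contra h1
    apply h
    rw [not_lt, div_le_iff₀ hMr] at h1
    rw [bp_high hτ (by linarith), zero_div, mul_zero]

/-- `∫ G²/x = 1/j` -/
lemma cl_norm (M j : ℕ) {α β τ : ℝ} (hM : 0 < M) (hj : 0 < j) (hα : 0 < α) (hτ : 0 < τ) (hab : 2 * τ < β - α) :
    ∫ x in Ioi (0 : ℝ), cl M j α β τ x ^ 2 / x = 1 / (j : ℝ) := by
  have hMr : (0 : ℝ) < M := by exact_mod_cast hM
  have hjr : (0 : ℝ) < j := by exact_mod_cast hj
  have hI : 0 < ∫ s, bp α β τ s ^ 2 := by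
    have := (bp_int hτ (by linarith) hab.le 2 (by norm_num)).1
    linarith
  have h1 : ∀ x ∈ Ioi (0 : ℝ), cl M j α β τ x ^ 2 / x = (M / j / (∫ s, bp α β τ s ^ 2)) * bp α β τ (M * x) ^ 2 := by
    intro x hx
    have hx0 : (0 : ℝ) < x := hx
    unfold cl ga
    rw [mul_pow, div_pow, Real.sq_sqrt (by positivity), Real.sq_sqrt hI.le]
    field_simp
  rw [setIntegral_congr_fun measurableSet_Ioi h1, integral_const_mul]
  have h2 : ∫ x in Ioi (0 : ℝ), bp α β τ (M * x) ^ 2 = (M : ℝ)⁻¹ * ∫ s, bp α β τ s ^ 2 := by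
    have h3 := integral_comp_mul_left_Ioi (fun s => bp α β τ s ^ 2) 0 hMr
    rw [mul_zero] at h3
    rw [h3, smul_eq_mul]
    congr 1
    refine setIntegral_eq_integral_of_forall_compl_eq_zero fun t ht => ?_
    rw [bp_low hτ (by rw [mem_Ioi, not_lt] at ht; linarith), zero_pow (by norm_num)]
  rw [h2]
  field_simp

/-- bounds for `∫ G/x` -/
lemma cl_mean (M j : ℕ) {α β τ : ℝ} (hM : 0 < M) (hj : 0 < j) (hα : 0 < α) (hτ : 0 < τ) (hab : 2 * τ < β - α) :
    (β - α - 2 * τ) / Real.sqrt (β - α) / Real.sqrt (j * β) ≤ ∫ x in Ioi (0 : ℝ), cl M j α β τ x / x ∧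
    ∫ x in Ioi (0 : ℝ), cl M j α β τ x / x ≤ (β - α) / Real.sqrt (β - α - 2 * τ) / Real.sqrt (j * α) := by
  have hMr : (0 : ℝ) < M := by exact_mod_cast hM
  have hjr : (0 : ℝ) < j := by exact_mod_cast hj
  have hI := bp_int hτ (by linarith) hab.le 2 (by norm_num)
  have hI1 := bp_int hτ (by linarith) hab.le 1 (by norm_num)
  simp only [pow_one] at hI1
  have hI0 : 0 < ∫ s, bp α β τ s ^ 2 := by linarith [hI.1]
  set I := ∫ s, bp α β τ s ^ 2 with hIdef
  have hβ : 0 < β := by linarith
  have h1 : ∀ x ∈ Ioi (0 : ℝ), cl M j α β τ x / x =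
      (M : ℝ) * ((Real.sqrt I)⁻¹ * ((Real.sqrt (j * (M * x)))⁻¹ * bp α β τ (M * x))) := by
    intro x hx
    have hx0 : (0 : ℝ) < x := hx
    have e1 : Real.sqrt (M * x / j) = M * x * (Real.sqrt (j * (M * x)))⁻¹ := by
      rw [Real.sqrt_div (by positivity), Real.sqrt_mul hjr.le, mul_inv]
      have h2 : Real.sqrt (M * x) ≠ 0 := by positivity
      have h3 : Real.sqrt (j : ℝ) ≠ 0 := by positivity
      field_simp
      rw [Real.sq_sqrt (by positivity)]
    unfold cl ga
    rw [e1, ← hIdef]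
    have h3 : Real.sqrt I ≠ 0 := by positivity
    have h4 : Real.sqrt (j * (M * x)) ≠ 0 := by positivity
    field_simp
  rw [setIntegral_congr_fun measurableSet_Ioi h1, integral_const_mul]
  have h2 : ∫ x in Ioi (0 : ℝ), (Real.sqrt I)⁻¹ * ((Real.sqrt (j * (M * x)))⁻¹ * bp α β τ (M * x)) =
      (M : ℝ)⁻¹ * ∫ s, (Real.sqrt I)⁻¹ * ((Real.sqrt (j * s))⁻¹ * bp α β τ s) := by
    have h3 := integral_comp_mul_left_Ioi (fun s => (Real.sqrt I)⁻¹ * ((Real.sqrt (j * s))⁻¹ * bp α β τ s)) 0 hMr
    rw [mul_zero] at h3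
    rw [h3, smul_eq_mul]
    congr 1
    refine setIntegral_eq_integral_of_forall_compl_eq_zero fun t ht => ?_
    rw [bp_low hτ (by rw [mem_Ioi, not_lt] at ht; linarith), mul_zero, mul_zero]
  rw [h2, ← mul_assoc, mul_inv_cancel₀ hMr.ne', one_mul, integral_const_mul]
  -- the integral of `(j s)^(-1/2) bp`
  have hbi : Integrable (bp α β τ) := by
    refine (bp_contDiff α β τ).continuous.integrable_of_hasCompactSupport ?_
    refine HasCompactSupport.intro (K := Icc α β) isCompact_Icc fun x hx => ?_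
    by_contra h
    exact hx (bp_supp hτ 1 (by norm_num) (by simpa using h))
  have hki : Integrable (fun s => (Real.sqrt (j * s))⁻¹ * bp α β τ s) := by
    have hm : AEStronglyMeasurable (fun s => (Real.sqrt (j * s))⁻¹ * bp α β τ s) :=
      (((Real.continuous_sqrt.comp (continuous_const.mul continuous_id)).measurable.inv).mul
        (bp_contDiff α β τ).continuous.measurable).aestronglyMeasurable
    refine (hbi.const_mul (Real.sqrt (j * α))⁻¹).mono' hm (Eventually.of_forall fun s => ?_)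
    rw [Real.norm_eq_abs, abs_mul, abs_of_nonneg (bp_nonneg _ _ _ _), abs_of_nonneg (by positivity)]
    rcases le_or_gt s α with hs | hs
    · rw [bp_low hτ hs, mul_zero, mul_zero]
    · refine mul_le_mul_of_nonneg_right ?_ (bp_nonneg _ _ _ _)
      exact inv_anti₀ (by positivity) (Real.sqrt_le_sqrt (by gcongr))
  have hup : ∫ s, (Real.sqrt (j * s))⁻¹ * bp α β τ s ≤ (Real.sqrt (j * α))⁻¹ * ∫ s, bp α β τ s := by
    rw [← integral_const_mul]
    refine integral_mono hki (hbi.const_mul _) fun s => ?_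
    rcases le_or_gt s α with hs | hs
    · show _ * bp α β τ s ≤ _ * bp α β τ s
      rw [bp_low hτ hs, mul_zero, mul_zero]
    · refine mul_le_mul_of_nonneg_right ?_ (bp_nonneg _ _ _ _)
      exact inv_anti₀ (by positivity) (Real.sqrt_le_sqrt (by gcongr))
  have hlo : (Real.sqrt (j * β))⁻¹ * ∫ s, bp α β τ s ≤ ∫ s, (Real.sqrt (j * s))⁻¹ * bp α β τ s := by
    rw [← integral_const_mul]
    refine integral_mono (hbi.const_mul _) hki fun s => ?_
    show _ * bp α β τ s ≤ _ * bp α β τ s
    rcases le_or_gt s α with hs | hs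
    · rw [bp_low hτ hs, mul_zero, mul_zero]
    · rcases le_or_gt s β with hs' | hs'
      · refine mul_le_mul_of_nonneg_right ?_ (bp_nonneg _ _ _ _)
        have hs0 : 0 < s := hα.trans hs
        exact inv_anti₀ (by positivity) (Real.sqrt_le_sqrt (by gcongr))
      · rw [bp_high hτ hs'.le, mul_zero, mul_zero]
  have hB0 : 0 ≤ ∫ s, bp α β τ s := integral_nonneg fun s => bp_nonneg _ _ _ _
  constructor
  · calc (β - α - 2 * τ) / Real.sqrt (β - α) / Real.sqrt (j * β)
        = (Real.sqrt (β - α))⁻¹ * ((Real.sqrt (j * β))⁻¹ * (β - α - 2 * τ)) := by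
          rw [div_div, div_eq_mul_inv, mul_inv]; ring
      _ ≤ (Real.sqrt I)⁻¹ * ((Real.sqrt (j * β))⁻¹ * ∫ s, bp α β τ s) := by
          refine mul_le_mul ?_ ?_ (by have : 0 ≤ β - α - 2 * τ := by linarith
                                      positivity) (by positivity)
          · exact inv_anti₀ (by positivity) (Real.sqrt_le_sqrt hI.2)
          · exact mul_le_mul_of_nonneg_left hI1.1 (by positivity)
      _ ≤ _ := mul_le_mul_of_nonneg_left hlo (by positivity)
  · calc _ ≤ (Real.sqrt I)⁻¹ * ((Real.sqrt (j * α))⁻¹ * ∫ s, bp α β τ s) :=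
          mul_le_mul_of_nonneg_left hup (by positivity)
      _ ≤ (Real.sqrt (β - α - 2 * τ))⁻¹ * ((Real.sqrt (j * α))⁻¹ * (β - α)) := by
          refine mul_le_mul ?_ ?_ (by positivity) (by positivity)
          · exact inv_anti₀ (Real.sqrt_pos.2 (by linarith)) (Real.sqrt_le_sqrt hI.1)
          · exact mul_le_mul_of_nonneg_left hI1.2 (by positivity)
      _ = _ := by
          rw [div_div, div_eq_mul_inv, mul_inv]; ring

/-- The cells exist for every `M ≥ 2`. -/
theorem exists_cell0 (M : ℕ) (hM : 2 ≤ M) : ∃ G, Cell0 M G := by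
  have hM0 : 0 < M := by omega
  have hMr : (2 : ℝ) ≤ M := by exact_mod_cast hM
  -- first cell `(1/20, 1)`, other cells `(j-1, j)` with sharpness `1/(8M)`
  refine ⟨fun j x => if j = 0 ∨ M ≤ j then 0 else if j = 1 then cl M 1 (1 / 20) 1 (1 / 20) x
    else cl M j ((j : ℝ) - 1) j (1 / (8 * M)) x, ⟨hM, fun j => ?_, fun j x => ?_, fun j x hx => ?_, fun j x hx => ?_,
    fun j hj x => ?_, fun j hj hjM => ?_, fun j hj hjM => ?_⟩⟩
  · by_cases h : j = 0 ∨ M ≤ j
    · simp only [if_pos h]
      exact contDiff_const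
    · by_cases h1 : j = 1
      · simp only [if_neg h, if_pos h1]
        exact cl_smooth M 1 hM0 one_pos (by norm_num) (by norm_num)
      · simp only [if_neg h, if_neg h1]
        have hj2 : 2 ≤ j := by omega
        have hjr : (2 : ℝ) ≤ j := by exact_mod_cast hj2
        exact cl_smooth M j hM0 (by omega) (by linarith) (by positivity)
  · split_ifs
    · exact le_rfl
    · exact cl_nonneg _ _ _ _ _ _
    · exact cl_nonneg _ _ _ _ _ _
  · split_ifs with h h1
    · rfl
    · by_contra h2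
      have h3 := (cl_supp M 1 hM0 (by norm_num) h2).1
      rw [show (1 : ℝ) / 20 / M = 1 / (20 * (M : ℝ)) by rw [div_div]] at h3
      linarith
    · by_contra h2
      have h3 := (cl_supp M j hM0 (by positivity) h2).1
      have hj2 : 2 ≤ j := by omega
      have hjr : (2 : ℝ) ≤ j := by exact_mod_cast hj2
      have h4 : 1 / (20 * (M : ℝ)) ≤ ((j : ℝ) - 1) / M := by
        rw [div_le_div_iff₀ (by positivity) (by positivity)]
        nlinarith
      linarith
  · split_ifs at hx with h h1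
    · exact absurd rfl hx
    · have h3 := cl_supp M 1 hM0 (by norm_num) hx
      rw [h1, Nat.cast_one, sub_self, zero_div]
      exact ⟨lt_trans (by positivity) h3.1, h3.2⟩
    · exact cl_supp M j hM0 (by positivity) hx
  · have h : j = 0 ∨ M ≤ j := by omega
    simp only [if_pos h]
  · have h : ¬ (j = 0 ∨ M ≤ j) := by omega
    by_cases h1 : j = 1
    · simp only [if_neg h, if_pos h1]
      rw [cl_norm M 1 hM0 one_pos (by norm_num) (by norm_num) (by norm_num), h1]
    · simp only [if_neg h, if_neg h1]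
      have hj2 : 2 ≤ j := by omega
      have hjr : (2 : ℝ) ≤ j := by exact_mod_cast hj2
      refine cl_norm M j hM0 (by omega) (by linarith) (by positivity) ?_
      rw [show (j : ℝ) - (j - 1) = 1 by ring, show 2 * (1 / (8 * (M : ℝ))) = 1 / (4 * M) by field_simp; ring,
        div_lt_one (by positivity)]
      linarith
  · have h : ¬ (j = 0 ∨ M ≤ j) := by omega
    by_cases h1 : j = 1
    · simp only [if_neg h, if_pos h1]
      have h3 := cl_mean M 1 (α := 1 / 20) (β := 1) (τ := 1 / 20) hM0 one_pos (by norm_num) (by norm_num) (by norm_num)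
      rw [h1, Nat.cast_one]
      rw [Nat.cast_one, one_mul, one_mul] at h3
      have h4 : (0 : ℝ) ≤ (1 - 1 / 20 - 2 * (1 / 20)) / Real.sqrt (1 - 1 / 20) / Real.sqrt 1 := by
        have : (0 : ℝ) ≤ 1 - 1 / 20 - 2 * (1 / 20) := by norm_num
        positivity
      have h5 : (1 - 1 / 20) / Real.sqrt (1 - 1 / 20 - 2 * (1 / 20)) / Real.sqrt (1 / 20) ≤ (5 : ℝ) := by
        rw [div_div, ← Real.sqrt_mul (by norm_num), div_le_iff₀ (Real.sqrt_pos.2 (by norm_num))]
        have h6 : (1 / 5 : ℝ) ≤ Real.sqrt ((1 - 1 / 20 - 2 * (1 / 20)) * (1 / 20)) := by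
          apply Real.le_sqrt_of_sq_le
          norm_num
        linarith
      rw [abs_le]
      constructor <;> linarith [h3.1, h3.2]
    · simp only [if_neg h, if_neg h1]
      have hj2 : 2 ≤ j := by omega
      have hjr : (2 : ℝ) ≤ j := by exact_mod_cast hj2
      have hjMr : (j : ℝ) + 1 ≤ M := by exact_mod_cast hjM
      have h3 := cl_mean M j (α := (j : ℝ) - 1) (β := j) (τ := 1 / (8 * M)) hM0 (by omega) (by linarith) (by positivity)
        (by
          rw [show (j : ℝ) - (j - 1) = 1 by ring, show 2 * (1 / (8 * (M : ℝ))) = 1 / (4 * M) by field_simp; ring,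
            div_lt_one (by positivity)]
          linarith)
      rw [show (j : ℝ) - (j - 1) = 1 by ring, show 2 * (1 / (8 * (M : ℝ))) = 1 / (4 * M) by field_simp; ring,
        Real.sqrt_one, div_one] at h3
      have e1 : Real.sqrt ((j : ℝ) * j) = j := Real.sqrt_mul_self (by linarith)
      rw [e1] at h3
      have hq : (1 : ℝ) / (4 * M) ≤ 1 / (4 * j) := by
        apply one_div_le_one_div_of_le (by positivity)
        linarith
      have hq0 : (0 : ℝ) < 1 / (4 * M) := by positivity
      have hq1 : (1 : ℝ) / (4 * j) ≤ 1 / 8 := by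
        apply one_div_le_one_div_of_le (by norm_num)
        linarith
      have hlow : 1 / (j : ℝ) - 4 / (j : ℝ) ^ 2 ≤ (1 - 1 / (4 * M)) / j := by
        have h6 : (1 - 1 / (4 * (j : ℝ))) / j ≤ (1 - 1 / (4 * (M : ℝ))) / j := by
          gcongr
        refine le_trans ?_ h6
        rw [sub_div, div_div]
        have h7 : 1 / (4 * (j : ℝ) * j) ≤ 4 / (j : ℝ) ^ 2 := by
          rw [div_le_div_iff₀ (by positivity) (by positivity)]
          nlinarith [sq_nonneg (j : ℝ)]
        linarith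
      have hup : 1 / Real.sqrt (1 - 1 / (4 * (M : ℝ))) / Real.sqrt (j * ((j : ℝ) - 1)) ≤ 1 / (j : ℝ) + 4 / (j : ℝ) ^ 2 := by
        have h6 : (1 - 1 / (4 * (j : ℝ))) ≤ Real.sqrt (1 - 1 / (4 * (M : ℝ))) := by
          apply Real.le_sqrt_of_sq_le
          nlinarith
        have h7 : (j : ℝ) - 1 ≤ Real.sqrt (j * ((j : ℝ) - 1)) := by
          apply Real.le_sqrt_of_sq_le
          nlinarith
        rw [div_div]
        have h8 : 0 < (1 - 1 / (4 * (j : ℝ))) * ((j : ℝ) - 1) := by
          apply mul_pos <;> linarith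
        calc 1 / (Real.sqrt (1 - 1 / (4 * (M : ℝ))) * Real.sqrt (j * ((j : ℝ) - 1)))
            ≤ 1 / ((1 - 1 / (4 * (j : ℝ))) * ((j : ℝ) - 1)) := by
              apply one_div_le_one_div_of_le h8
              exact mul_le_mul h6 h7 (by linarith) (Real.sqrt_nonneg _)
          _ ≤ 1 / (j : ℝ) + 4 / (j : ℝ) ^ 2 := by
              have e2 : (1 : ℝ) / j + 4 / (j : ℝ) ^ 2 = (j + 4) / (j : ℝ) ^ 2 := by field_simp
              rw [e2, div_le_div_iff₀ h8 (by positivity)]
              have e3 : (1 - 1 / (4 * (j : ℝ))) * ((j : ℝ) - 1) = j - 5 / 4 + 1 / (4 * j) := by field_simp; ring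
              rw [e3]
              have h9 : 0 < 1 / (4 * (j : ℝ)) := by positivity
              nlinarith [mul_pos (show (0:ℝ) < j + 4 by linarith) h9]
      rw [abs_le]
      constructor <;> linarith [h3.1, h3.2]

end Pool.Agent.H29.AH
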