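import Mathlib
import Pool.Agent.H67.HF.Defs2
import Pool.Agent.H6.Glue

/-!
# MP_103a5c_AH (rigidity at the barrier 1/2): definitions

THEOREM (helper29, helper68, helper92, ...).  Assume RH, `T_n → ∞` and `N(T_n; 0, b) ~ norm (T_n)` for every `b < 1/2`.
Then `N(T_n; α, β) / norm (T_n) → ∑_{α < j/2 < β} m_j` for all `α < β` with `2α, 2β` not integers, where `m_0 = 1`,
`m_j = (1/2) (1 - sinc(π j/2)^2)`: the Alternative Hypothesis (pair form) along `T_n`.

Proof outline: /team-store/H68_rigidity.md (+ H92_rigid.md, H84_rigidity.md); block list: /team-store/H29_AHblocks.md.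

One parameter `k → ∞` (after `M`) governs `b = bk k ↗ 1/2`, the length `θ = thk k ↗ 1`, the sharpness of the cells and
the band `(k+1) D₀` of the window.
-/

open MeasureTheory Set Filter Topology
open scoped Real ContDiff ComplexConjugate

namespace Pool.Agent.H29.AH

open Pool.Agent Pool.Agent.H6 Pool.Agent.H14.GP Pool.Agent.H24.HF Pool.Agent.H67.HF

/-! ### parameters -/

/-- the window length `b_k < 1/2` -/
noncomputable def bk (k : ℕ) : ℝ := 1 / 2 - 1 / (4 * ((k : ℝ) + 1))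

/-- the length `θ_k < 1` -/
noncomputable def thk (k : ℕ) : ℝ := 1 - 1 / ((k : ℝ) + 2)

/-- profile of a cell: `1` on `[1/(k+4), 1 - 1/(k+4)]`, supported in `(0,1)` -/
noncomputable def gk (k : ℕ) (x : ℝ) : ℝ :=
  Real.smoothTransition (((k : ℝ) + 4) * x) * Real.smoothTransition (((k : ℝ) + 4) * (1 - x))

/-- the cell functions `G_j`, `2 ≤ j < M`: height one, supported in `(θ(j-1)/M, θ j/M)` -/
noncomputable def Gk (k M j : ℕ) (u : ℝ) : ℝ :=
  if 2 ≤ j ∧ j < M then gk k (M * u / thk k - ((j : ℝ) - 1)) else 0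

/-- the window `χ₀(u/(k+1))` -/
noncomputable def chk (χ₀ : ℝ → ℝ) (k : ℕ) (u : ℝ) : ℝ := χ₀ (u / ((k : ℝ) + 1))

/-- half the window length, in the variable `t`: `π b_k / log T` -/
noncomputable def hk (k : ℕ) (T : ℝ) : ℝ := π * bk k / Real.log T

/-! ### evaluation of Dirichlet polynomials at complex points -/

/-- the character `n ↦ n^(-iz)`, with `0 ↦ 0` -/
noncomputable def chz (z : ℂ) : ℕ →* ℂ where
  toFun n := if n = 0 then 0 else Complex.exp (-(z * (Real.log n : ℂ)) * Complex.I)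
  map_one' := by simp
  map_mul' m n := by
    by_cases hm : m = 0
    · simp [hm]
    by_cases hn : n = 0
    · simp [hn]
    have hm' : (m : ℝ) ≠ 0 := by exact_mod_cast hm
    have hn' : (n : ℝ) ≠ 0 := by exact_mod_cast hn
    simp only [mul_eq_zero, hm, hn, or_self, if_false]
    rw [← Complex.exp_add, Nat.cast_mul, Real.log_mul hm' hn']
    congr 1
    push_cast
    ring

/-- value `X(z) = ∑ X(n) n^(-iz)` at a complex point -/
noncomputable def evz (z : ℂ) : DPoly →ₐ[ℝ] ℂ := MonoidAlgebra.lift ℝ ℂ ℕ (chz z)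

/-! ### the resonators -/

/-- `C_M = ∑_{m<M} h_m`, `h_m` = coefficients of `exp (- ∑_j B_j y^j)`, `B_j = bb (G_j) T` -/
noncomputable def CD (k M : ℕ) (T : ℝ) : DPoly :=
  ∑ m ∈ Finset.range M, cf (-1) (fun j => bb (Gk k M j) T) m

/-- `C_M(t)` -/
noncomputable def CM (k M : ℕ) (T t : ℝ) : ℂ := ev t (CD k M T)

/-- `n(t) = b - 2 P(t)`, the smoothed number of zeros in the window of length `b` (in units of the mean spacing)
around `t`; its real part is the actual smoothed count -/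
noncomputable def nn (χ₀ : ℝ → ℝ) (D₀ : ℝ) (k : ℕ) (T t : ℝ) : ℂ :=
  (bk k : ℂ) - 2 * PP1 (chk χ₀ k) (bk k) (((k : ℝ) + 1) * D₀) T t

/-- `V(t) = exp (i π (n(t) - 1/2))` -/
noncomputable def VV (χ₀ : ℝ → ℝ) (D₀ : ℝ) (k : ℕ) (T t : ℝ) : ℂ :=
  Complex.exp (Complex.I * (π : ℂ) * (nn χ₀ D₀ k T t - 1 / 2))

/-- the phase `ω = exp (i π (b - 1/2))` -/
noncomputable def om (k : ℕ) : ℂ := Complex.exp (Complex.I * (π : ℂ) * ((bk k : ℂ) - 1 / 2))

/-- the error in the functional equation `V(t) C(t+h) = ω C(t-h)`, `h = hk k T` -/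
noncomputable def Err (χ₀ : ℝ → ℝ) (D₀ : ℝ) (k M : ℕ) (T t : ℝ) : ℝ :=
  ‖VV χ₀ D₀ k T t * CM k M T (t + hk k T) - om k * CM k M T (t - hk k T)‖ / (1 + ‖VV χ₀ D₀ k T t‖)

/-- `log |V(t+h) V(t+3h) ⋯ V(t+(2m-1)h)|` -/
noncomputable def LV (χ₀ : ℝ → ℝ) (D₀ : ℝ) (k m : ℕ) (T t : ℝ) : ℝ :=
  ∑ i ∈ Finset.range m, Real.log ‖VV χ₀ D₀ k T (t + (2 * (i : ℝ) + 1) * hk k T)‖

/-! ### low bands -/

/-- height `y = (log M)^3` (in units of the mean spacing) -/
noncomputable def yM (M : ℕ) : ℝ := Real.log M ^ 3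

/-- last cell of the low band -/
noncomputable def JM (M : ℕ) : ℕ := ⌊(M : ℝ) / (20 * Real.log M)⌋₊

/-- degree of the Taylor polynomial -/
noncomputable def dM (M : ℕ) : ℕ := ⌊10 * Real.log M⌋₊

/-- `λ_M = (log M)^(2/5)` -/
noncomputable def lamM (M : ℕ) : ℝ := Real.log M ^ (2 / 5 : ℝ)

/-- the low band test function `σ(u) = ∑_{j ≤ J} G_j(u) e^{-2π y u}` -/
noncomputable def sigM (k M : ℕ) (u : ℝ) : ℝ :=
  ∑ j ∈ Finset.range (JM M + 1), Gk k M j u * Real.exp (-(2 * π * yM M * u))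

/-- `S_M(t)` -/
noncomputable def SMd (k M : ℕ) (T t : ℝ) : ℂ := ev t (bb (sigM k M) T)

/-- `X_M(t) = Re S_M(t)` -/
noncomputable def XM (k M : ℕ) (T t : ℝ) : ℝ := (SMd k M T t).re

/-- `C_M(t - iy)`, `y` in units of the mean spacing -/
noncomputable def CMy (k M : ℕ) (T t : ℝ) : ℂ :=
  evz ((t : ℂ) - ((2 * π * yM M / Real.log T : ℝ) : ℂ) * Complex.I) (CD k M T)

/-! ### probability -/

/-- weights supported in `[a, r]`, `0 < a`, `r < 1` -/
structure WgtU (v : ℝ → ℝ) : Prop where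
  toWgt : Wgt v
  lt_one : ∃ r : ℝ, r < 1 ∧ ∀ x, r ≤ x → v x = 0

/-- weighted measure of a set of `t` -/
noncomputable def Pr (v : ℝ → ℝ) (T : ℝ) (S : Set ℝ) : ℝ := EE v T (S.indicator fun _ => 1)

/-- the hypothesis: no gaps below `1/2` along the filter `l` (a filter on heights `T`) -/
def HypAH (l : Filter ℝ) : Prop :=
  ∀ b : ℝ, 0 < b → b < 1 / 2 → Tendsto (fun T => PC.pairCount T 0 b / PC.norm T) l (𝓝 1)

/-- Alternative Hypothesis weights: `m_0 = 1`, `m_j = (1/2)(1 - sinc(πj/2)^2)` -/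
noncomputable def mAH (j : ℤ) : ℝ := if j = 0 then 1 else (1 / 2) * (1 - Real.sinc (π * j / 2) ^ 2)

/-- the limit of `N(T; α, β) / norm T` under AH -/
noncomputable def sumAH (α β : ℝ) : ℝ :=
  ∑ j ∈ Finset.Icc ⌈2 * α⌉ ⌊2 * β⌋, mAH j

/-- `a(t) = Re (e^{iψ} e^{i λ L t} D(t))`, `λ = (1-b)/(2b)`, `L = log T` -/
noncomputable def aS (b : ℝ) (ψ : ℝ) (X : DPoly) (T t : ℝ) : ℝ :=
  (Complex.exp (((ψ + (1 - b) / (2 * b) * Real.log T * t : ℝ) : ℂ) * Complex.I) * ev t X).re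

end Pool.Agent.H29.AH
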