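import Mathlib
import Pool.Agent.H14.GP.Gb

/-!
# MP_103a5c_AH, block FIN, part a: exponentials of power series

`KS c = ∑_{j ≥ 1} c_j X^j`, `EX c = exp (KS c)`, whose coefficients are `cf 1 c`.
-/

open Finset PowerSeries

namespace Pool.Agent.H29.AH

open Pool.Agent.H14.GP

/-- `∑_{j ≥ 1} c_j X^j` -/
noncomputable def KS (c : ℕ → ℂ) : ℂ⟦X⟧ := PowerSeries.mk fun j => if j = 0 then 0 else c j

/-- the power series with coefficients `cf 1 c` -/
noncomputable def EX (c : ℕ → ℂ) : ℂ⟦X⟧ := PowerSeries.mk (cf 1 c)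

@[simp] lemma coeff_EX (c : ℕ → ℂ) (n : ℕ) : coeff n (EX c) = cf 1 c n := coeff_mk _ _

lemma coeff_KS (c : ℕ → ℂ) (n : ℕ) : coeff n (KS c) = if n = 0 then 0 else c n := coeff_mk _ _

lemma const_KS (c : ℕ → ℂ) : constantCoeff (KS c) = 0 := by
  rw [← coeff_zero_eq_constantCoeff_apply, coeff_KS, if_pos rfl]

lemma const_EX (c : ℕ → ℂ) : constantCoeff (EX c) = 1 := by
  rw [← coeff_zero_eq_constantCoeff_apply, coeff_EX, cf_zero]

lemma KS_add (c c' : ℕ → ℂ) : KS (fun j => c j + c' j) = KS c + KS c' := by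
  ext n
  rw [map_add, coeff_KS, coeff_KS, coeff_KS]
  split_ifs <;> simp

lemma KS_mul (a : ℂ) (c : ℕ → ℂ) : KS (fun j => a * c j) = C a * KS c := by
  ext n
  rw [coeff_C_mul, coeff_KS, coeff_KS]
  split_ifs <;> simp

/-- the differential equation of `EX` -/
lemma deriv_EX (c : ℕ → ℂ) : d⁄dX ℂ (EX c) = d⁄dX ℂ (KS c) * EX c := by
  ext n
  rw [coeff_derivative, coeff_EX, coeff_mul, Finset.Nat.sum_antidiagonal_eq_sum_range_succ_mk]
  have h := newton (1 : ℝ) c n
  rw [one_smul] at h
  have h1 : cf 1 c (n + 1) * ((n : ℂ) + 1) = ((n : ℝ) + 1) • cf 1 c (n + 1) := by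
    rw [Complex.real_smul]
    push_cast
    ring
  rw [h1, h]
  refine Finset.sum_congr rfl fun j _ => ?_
  rw [coeff_derivative, coeff_KS, if_neg (Nat.succ_ne_zero j), coeff_EX, Complex.real_smul]
  push_cast
  ring

/-- uniqueness -/
lemma ode_unique {A F H : ℂ⟦X⟧} (hF : d⁄dX ℂ F = A * F) (hH : d⁄dX ℂ H = A * H)
    (h0 : constantCoeff F = constantCoeff H) : F = H := by
  have h : ∀ n, ∀ m ≤ n, coeff m F = coeff m H := by
    intro n
    induction n with
    | zero =>
      intro m hm
      obtain rfl : m = 0 := by omega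
      rw [coeff_zero_eq_constantCoeff_apply, coeff_zero_eq_constantCoeff_apply, h0]
    | succ n ih =>
      intro m hm
      rcases Nat.lt_or_ge m (n + 1) with h1 | h1
      · exact ih m (by omega)
      obtain rfl : m = n + 1 := by omega
      have e1 := congrArg (coeff n) hF
      have e2 := congrArg (coeff n) hH
      rw [coeff_derivative, coeff_mul] at e1 e2
      have e3 : ∑ p ∈ antidiagonal n, coeff p.1 A * coeff p.2 F = ∑ p ∈ antidiagonal n, coeff p.1 A * coeff p.2 H := by
        refine Finset.sum_congr rfl fun p hp => ?_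
        rw [ih p.2 (by have := Finset.HasAntidiagonal.mem_antidiagonal.1 hp; omega)]
      have e4 : coeff (n + 1) F * ((n : ℂ) + 1) = coeff (n + 1) H * ((n : ℂ) + 1) := by rw [e1, e2, e3]
      exact mul_right_cancel₀ (by exact_mod_cast Nat.succ_ne_zero n) e4
  ext n
  exact h n n le_rfl

lemma EX_add (c c' : ℕ → ℂ) : EX (fun j => c j + c' j) = EX c * EX c' := by
  refine ode_unique (A := d⁄dX ℂ (KS fun j => c j + c' j)) (deriv_EX _) ?_ ?_
  · rw [Derivation.leibniz, deriv_EX, deriv_EX, KS_add, map_add]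
    simp only [smul_eq_mul]
    ring
  · rw [map_mul, const_EX, const_EX, const_EX, one_mul]

/-- only the coefficients `j ≥ 1` matter -/
lemma EX_congr {c c' : ℕ → ℂ} (h : ∀ j, j ≠ 0 → c j = c' j) : EX c = EX c' := by
  have e : KS c = KS c' := by
    ext n
    rw [coeff_KS, coeff_KS]
    split_ifs with hn
    · rfl
    · exact h n hn
  exact ode_unique (A := d⁄dX ℂ (KS c)) (deriv_EX c) (by rw [deriv_EX c', e]) (by rw [const_EX, const_EX])

/-- coefficients below `M` depend only on the `c_j`, `j < M` -/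
lemma EX_congr_lt {c c' : ℕ → ℂ} {M : ℕ} (h : ∀ j, j ≠ 0 → j < M → c j = c' j) (n : ℕ) (hn : n < M) :
    coeff n (EX c) = coeff n (EX c') := by
  induction n using Nat.strong_induction_on with
  | _ n ih =>
    rcases n with _ | n
    · rw [coeff_EX, coeff_EX, cf_zero, cf_zero]
    · rw [coeff_EX, coeff_EX, cf_succ, cf_succ]
      congr 1
      refine Finset.sum_congr rfl fun j hj => ?_
      have hj' := Finset.mem_range.1 hj
      have := ih (n - j) (by omega) (by omega)
      rw [coeff_EX, coeff_EX] at this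
      rw [h (j + 1) (by omega) (by omega), this]

/-- `EX c` is the composition of `exp` with `KS c` -/
lemma EX_eq_subst (c : ℕ → ℂ) : EX c = (PowerSeries.exp ℂ).subst (KS c) := by
  have hs : HasSubst (KS c) := HasSubst.of_constantCoeff_zero' (const_KS c)
  refine ode_unique (A := d⁄dX ℂ (KS c)) (deriv_EX c) ?_ ?_
  · rw [derivative_subst hs, derivative_exp, mul_comm]
  · rw [const_EX]
    have h := coeff_subst' hs (PowerSeries.exp ℂ) 0
    rw [coeff_zero_eq_constantCoeff_apply] at h
    rw [h, finsum_eq_single _ 0]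
    · simp
    · intro n hn
      rw [coeff_zero_eq_constantCoeff_apply, map_pow, const_KS, zero_pow hn, smul_zero]

/-- `exp(a X)` composed with `κ` (with `κ(0) = 0`) -/
lemma subst_expa (a : ℂ) {κ : ℂ⟦X⟧} (hκ : constantCoeff κ = 0) :
    (PowerSeries.mk fun n => a ^ n / (n.factorial : ℂ)).subst κ = EX (fun j => a * coeff j κ) := by
  have hs : HasSubst κ := HasSubst.of_constantCoeff_zero' hκ
  have hk : KS (fun j => a * coeff j κ) = C a * κ := by
    ext n
    rw [coeff_KS, coeff_C_mul]
    split_ifs with h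
    · rw [h, coeff_zero_eq_constantCoeff_apply, hκ, mul_zero]
    · rfl
  have hder : d⁄dX ℂ (PowerSeries.mk fun n => a ^ n / (n.factorial : ℂ)) =
      C a * (PowerSeries.mk fun n => a ^ n / (n.factorial : ℂ)) := by
    ext n
    rw [coeff_derivative, coeff_C_mul, coeff_mk, coeff_mk, Nat.factorial_succ]
    have h1 : ((n : ℂ) + 1) ≠ 0 := by exact_mod_cast Nat.succ_ne_zero n
    have h2 : (n.factorial : ℂ) ≠ 0 := by exact_mod_cast Nat.factorial_ne_zero n
    push_cast
    field_simp
    ring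
  refine (ode_unique (A := d⁄dX ℂ (KS fun j => a * coeff j κ)) (deriv_EX _) ?_ ?_).symm
  · rw [derivative_subst hs, hder, subst_mul hs, hk, Derivation.leibniz]
    have e : (C a : ℂ⟦X⟧).subst κ = C a := by
      have := subst_C (a := κ) a
      exact this
    rw [e]
    simp only [smul_eq_mul, derivative_C, mul_zero, add_zero]
    ring
  · rw [const_EX]
    have h := coeff_subst' hs (PowerSeries.mk fun n => a ^ n / (n.factorial : ℂ)) 0
    rw [coeff_zero_eq_constantCoeff_apply] at h
    rw [h, finsum_eq_single _ 0]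
    · simp
    · intro n hn
      rw [coeff_zero_eq_constantCoeff_apply, map_pow, hκ, zero_pow hn, smul_zero]

/-- `exp (∑ z^j X^j / j) = 1/(1 - z X)` -/
lemma EX_geom (z : ℂ) : EX (fun j => z ^ j / (j : ℂ)) = PowerSeries.mk fun n => z ^ n := by
  refine ode_unique (A := d⁄dX ℂ (KS fun j => z ^ j / (j : ℂ))) (deriv_EX _) ?_ ?_
  · ext n
    rw [coeff_derivative, coeff_mk, coeff_mul, Finset.Nat.sum_antidiagonal_eq_sum_range_succ_mk]
    have h : ∀ j ∈ Finset.range n.succ, coeff j (d⁄dX ℂ (KS fun j => z ^ j / (j : ℂ))) *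
        coeff (n - j) (PowerSeries.mk fun n => z ^ n) = z ^ (n + 1) := by
      intro j hj
      have hj' := Finset.mem_range.1 hj
      rw [coeff_derivative, coeff_KS, if_neg (Nat.succ_ne_zero j), coeff_mk]
      have h1 : ((j : ℂ) + 1) ≠ 0 := by exact_mod_cast Nat.succ_ne_zero j
      push_cast
      rw [div_mul_cancel₀ _ h1, ← pow_add]
      congr 1
      omega
    rw [Finset.sum_congr rfl h, Finset.sum_const, Finset.card_range, nsmul_eq_mul]
    push_cast
    ring
  · rw [const_EX, ← coeff_zero_eq_constantCoeff_apply, coeff_mk, pow_zero]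

/-- `(1 - z X) · 1/(1 - z X) = 1` -/
lemma geom_mul (z : ℂ) : (1 - C z * X) * (PowerSeries.mk fun n => z ^ n) = 1 := by
  ext n
  rw [sub_mul, one_mul, map_sub, coeff_mk, mul_assoc, coeff_C_mul]
  rcases n with _ | n
  · rw [coeff_zero_X_mul, mul_zero, pow_zero, coeff_one, if_pos rfl, sub_zero]
  · rw [coeff_succ_X_mul, coeff_mk, coeff_one, if_neg (Nat.succ_ne_zero n)]
    ring

end Pool.Agent.H29.AH
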