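import Mathlib
import Pool.Agent.H29.AH.Fa

/-!
# MP_103a5c_AH, block FIN, part b: the `ℓ¹` norm of truncated power series
-/

open Finset PowerSeries

namespace Pool.Agent.H29.AH

open Pool.Agent.H14.GP

/-- `∑_{m<M} |f_m|` -/
noncomputable def nrm (M : ℕ) (f : ℂ⟦X⟧) : ℝ := ∑ m ∈ Finset.range M, ‖coeff m f‖

/-- `∑_{m<M} f_m` -/
noncomputable def SMf (M : ℕ) (f : ℂ⟦X⟧) : ℂ := ∑ m ∈ Finset.range M, coeff m f

lemma nrm_nonneg (M : ℕ) (f : ℂ⟦X⟧) : 0 ≤ nrm M f := Finset.sum_nonneg fun _ _ => norm_nonneg _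

lemma SMf_add (M : ℕ) (f g : ℂ⟦X⟧) : SMf M (f + g) = SMf M f + SMf M g := by
  unfold SMf
  rw [← Finset.sum_add_distrib]
  exact Finset.sum_congr rfl fun m _ => map_add _ _ _

lemma SMf_sub (M : ℕ) (f g : ℂ⟦X⟧) : SMf M (f - g) = SMf M f - SMf M g := by
  unfold SMf
  rw [← Finset.sum_sub_distrib]
  exact Finset.sum_congr rfl fun m _ => map_sub _ _ _

lemma SMf_C_mul (M : ℕ) (a : ℂ) (f : ℂ⟦X⟧) : SMf M (C a * f) = a * SMf M f := by
  unfold SMf
  rw [Finset.mul_sum]
  exact Finset.sum_congr rfl fun m _ => coeff_C_mul _ _ _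

lemma nrm_add (M : ℕ) (f g : ℂ⟦X⟧) : nrm M (f + g) ≤ nrm M f + nrm M g := by
  unfold nrm
  rw [← Finset.sum_add_distrib]
  exact Finset.sum_le_sum fun m _ => by rw [map_add]; exact norm_add_le _ _

lemma nrm_neg (M : ℕ) (f : ℂ⟦X⟧) : nrm M (-f) = nrm M f := by
  unfold nrm
  exact Finset.sum_congr rfl fun m _ => by rw [map_neg, norm_neg]

lemma nrm_sub (M : ℕ) (f g : ℂ⟦X⟧) : nrm M (f - g) ≤ nrm M f + nrm M g := by
  rw [sub_eq_add_neg]
  exact (nrm_add _ _ _).trans (by rw [nrm_neg])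

lemma nrm_C_mul (M : ℕ) (a : ℂ) (f : ℂ⟦X⟧) : nrm M (C a * f) = ‖a‖ * nrm M f := by
  unfold nrm
  rw [Finset.mul_sum]
  exact Finset.sum_congr rfl fun m _ => by rw [coeff_C_mul, norm_mul]

lemma nrm_one {M : ℕ} (hM : 0 < M) : nrm M (1 : ℂ⟦X⟧) = 1 := by
  unfold nrm
  rw [Finset.sum_eq_single 0]
  · simp
  · intro m _ hm
    rw [coeff_one, if_neg hm, norm_zero]
  · intro h
    exact absurd (Finset.mem_range.2 hM) h

lemma nrm_one_le (M : ℕ) : nrm M (1 : ℂ⟦X⟧) ≤ 1 := by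
  rcases Nat.eq_zero_or_pos M with h | h
  · rw [h]; simp [nrm]
  · exact (nrm_one h).le

lemma nrm_C_le (M : ℕ) (a : ℂ) : nrm M (C a) ≤ ‖a‖ := by
  have h := nrm_C_mul M a 1
  rw [mul_one] at h
  rw [h]
  exact mul_le_of_le_one_right (norm_nonneg _) (nrm_one_le M)

/-- the basic double sum -/
lemma dsum_le {M : ℕ} (a b : ℕ → ℝ) (ha : ∀ n, 0 ≤ a n) (hb : ∀ n, 0 ≤ b n) :
    ∑ m ∈ Finset.range M, ∑ p ∈ HasAntidiagonal.antidiagonal m, a p.1 * b p.2 ≤
      (∑ m ∈ Finset.range M, a m) * ∑ m ∈ Finset.range M, b m := by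
  classical
  rw [Finset.sum_mul_sum, ← Finset.sum_product', Finset.sum_sigma']
  have hinj : ∀ x ∈ (Finset.range M).sigma (fun m => HasAntidiagonal.antidiagonal m),
      ∀ y ∈ (Finset.range M).sigma (fun m => HasAntidiagonal.antidiagonal m), x.2 = y.2 → x = y := by
    rintro ⟨m, p⟩ hx ⟨m', p'⟩ hx' h
    simp only [Finset.mem_sigma, Finset.mem_range, HasAntidiagonal.mem_antidiagonal] at hx hx'
    simp only at h
    subst h
    have : m = m' := by omega
    subst this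
    rfl
  have e := Finset.sum_image (f := fun p : ℕ × ℕ => a p.1 * b p.2) (g := fun x : (_ : ℕ) × (ℕ × ℕ) => x.2) hinj
  refine le_trans (le_of_eq e.symm) ?_
  refine Finset.sum_le_sum_of_subset_of_nonneg ?_ fun x _ _ => mul_nonneg (ha _) (hb _)
  intro q hq
  obtain ⟨x, hx, rfl⟩ := Finset.mem_image.1 hq
  simp only [Finset.mem_sigma, Finset.mem_range, HasAntidiagonal.mem_antidiagonal] at hx
  simp only [Finset.mem_product, Finset.mem_range]
  omega

lemma nrm_mul (M : ℕ) (f g : ℂ⟦X⟧) : nrm M (f * g) ≤ nrm M f * nrm M g := by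
  refine le_trans ?_ (dsum_le (M := M) (fun n => ‖coeff n f‖) (fun n => ‖coeff n g‖) (fun _ => norm_nonneg _)
    fun _ => norm_nonneg _)
  unfold nrm
  refine Finset.sum_le_sum fun m _ => ?_
  rw [coeff_mul]
  refine (norm_sum_le _ _).trans (Finset.sum_le_sum fun p _ => ?_)
  rw [norm_mul]

lemma nrm_pow (M : ℕ) (f : ℂ⟦X⟧) (n : ℕ) : nrm M (f ^ n) ≤ nrm M f ^ n := by
  induction n with
  | zero => rw [pow_zero, pow_zero]; exact nrm_one_le M
  | succ n ih =>
    rw [pow_succ, pow_succ]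
    exact (nrm_mul _ _ _).trans (mul_le_mul_of_nonneg_right ih (nrm_nonneg _ _))

/-- bounded coefficients times small norm -/
lemma SMf_mul_le {M : ℕ} {B : ℝ} {f : ℂ⟦X⟧} (hf : ∀ m < M, ‖coeff m f‖ ≤ B) (hB : 0 ≤ B) (g : ℂ⟦X⟧) :
    ‖SMf M (f * g)‖ ≤ M * B * nrm M g := by
  have h1 : ‖SMf M (f * g)‖ ≤ nrm M f * nrm M g := by
    refine le_trans ?_ (nrm_mul M f g)
    unfold SMf nrm
    exact norm_sum_le _ _
  refine h1.trans (mul_le_mul_of_nonneg_right ?_ (nrm_nonneg _ _))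
  unfold nrm
  refine (Finset.sum_le_sum fun m hm => hf m (Finset.mem_range.1 hm)).trans (le_of_eq ?_)
  rw [Finset.sum_const, Finset.card_range, nsmul_eq_mul]

/-- inverse of a perturbation of one -/
lemma nrm_inv_le {M : ℕ} {g u : ℂ⟦X⟧} (h : (1 + g) * u = 1) (hg : nrm M g ≤ 1 / 2) : nrm M u ≤ 2 := by
  have e : u = 1 - g * u := by rw [← h]; ring
  have h1 : nrm M u ≤ 1 + 1 / 2 * nrm M u := by
    conv_lhs => rw [e]
    refine (nrm_sub _ _ _).trans (add_le_add (nrm_one_le M) ((nrm_mul _ _ _).trans ?_))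
    exact mul_le_mul_of_nonneg_right hg (nrm_nonneg _ _)
  linarith

/-- coefficients of `EX c` as a finite sum -/
lemma coeff_EX_sum (c : ℕ → ℂ) {m N : ℕ} (hm : m < N) :
    coeff m (EX c) = ∑ d ∈ Finset.range N, (1 / (d.factorial : ℂ)) * coeff m (KS c ^ d) := by
  have hs : HasSubst (KS c) := HasSubst.of_constantCoeff_zero' (const_KS c)
  rw [EX_eq_subst, coeff_subst' hs, finsum_eq_sum_of_support_subset (s := Finset.range N)]
  · refine Finset.sum_congr rfl fun d _ => ?_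
    rw [coeff_exp, smul_eq_mul]
    congr 1
    simp
  · intro d hd
    rw [Function.mem_support] at hd
    rw [Finset.coe_range, Set.mem_Iio]
    by_contra h
    apply hd
    have : coeff m (KS c ^ d) = 0 := by
      apply coeff_of_lt_order
      have h1 : (d : ℕ∞) ≤ (KS c ^ d).order := by
        refine le_order_pow_of_constantCoeff_eq_zero d (const_KS c)
      exact lt_of_lt_of_le (by exact_mod_cast (by omega : m < d)) h1
    rw [this, smul_zero]

lemma nrm_EX_sub_one (M : ℕ) (c : ℕ → ℂ) : nrm M (EX c - 1) ≤ Real.exp (nrm M (KS c)) - 1 := by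
  rcases Nat.eq_zero_or_pos M with hM | hM
  · rw [hM]
    simp [nrm]
  have h1 : ∀ m ∈ Finset.range M, ‖coeff m (EX c - 1)‖ ≤
      ∑ d ∈ Finset.range (M - 1), (1 / ((d + 1).factorial : ℝ)) * ‖coeff m (KS c ^ (d + 1))‖ := by
    intro m hm
    have hm' := Finset.mem_range.1 hm
    obtain ⟨N, rfl⟩ : ∃ N, M = N + 1 := ⟨M - 1, by omega⟩
    rw [map_sub, coeff_EX_sum c hm', Finset.sum_range_succ']
    simp only [Nat.factorial_zero, Nat.cast_one, div_one, pow_zero, one_mul, add_sub_cancel_right]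
    rw [Nat.add_sub_cancel]
    refine (norm_sum_le _ _).trans (Finset.sum_le_sum fun d _ => ?_)
    rw [norm_mul, norm_div, norm_one, Complex.norm_natCast]
  have h2 : nrm M (EX c - 1) ≤ ∑ d ∈ Finset.range (M - 1), nrm M (KS c) ^ (d + 1) / ((d + 1).factorial : ℝ) := by
    unfold nrm at *
    refine (Finset.sum_le_sum h1).trans ?_
    rw [Finset.sum_comm]
    refine Finset.sum_le_sum fun d _ => ?_
    rw [← Finset.mul_sum, one_div, div_eq_inv_mul]
    refine mul_le_mul_of_nonneg_left ?_ (by positivity)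
    exact nrm_pow M (KS c) (d + 1)
  have h3 : 1 + ∑ d ∈ Finset.range (M - 1), nrm M (KS c) ^ (d + 1) / ((d + 1).factorial : ℝ) ≤ Real.exp (nrm M (KS c)) := by
    have h4 := Real.sum_le_exp_of_nonneg (nrm_nonneg M (KS c)) M
    obtain ⟨N, rfl⟩ : ∃ N, M = N + 1 := ⟨M - 1, by omega⟩
    rw [Finset.sum_range_succ'] at h4
    rw [Nat.add_sub_cancel]
    simp only [pow_zero, Nat.factorial_zero, Nat.cast_one, div_one] at h4
    linarith
  linarith

/-- majorant by the geometric series -/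
lemma coeff_EX_le_one {M : ℕ} {c : ℕ → ℂ} (hc : ∀ j, 1 ≤ j → j < M → ‖c j‖ ≤ 1 / (j : ℝ)) (n : ℕ) (hn : n < M) :
    ‖coeff n (EX c)‖ ≤ 1 := by
  induction n using Nat.strong_induction_on with
  | _ n ih =>
    rcases n with _ | n
    · rw [coeff_EX, cf_zero, norm_one]
    · have h := newton (1 : ℝ) c n
      rw [one_smul] at h
      have h1 : ((n : ℝ) + 1) * ‖cf 1 c (n + 1)‖ ≤ (n : ℝ) + 1 := by
        have h2 : ‖((n : ℝ) + 1) • cf 1 c (n + 1)‖ = ((n : ℝ) + 1) * ‖cf 1 c (n + 1)‖ := by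
          rw [norm_smul, Real.norm_eq_abs, abs_of_pos (by positivity)]
        rw [← h2, h]
        refine (norm_sum_le _ _).trans ?_
        have h3 : ∀ j ∈ Finset.range (n + 1), ‖((j : ℝ) + 1) • (c (j + 1) * cf 1 c (n - j))‖ ≤ 1 := by
          intro j hj
          have hj' := Finset.mem_range.1 hj
          rw [norm_smul, Real.norm_eq_abs, abs_of_pos (by positivity), norm_mul]
          have h4 := hc (j + 1) (by omega) (by omega)
          have h5 := ih (n - j) (by omega) (by omega)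
          rw [coeff_EX] at h5
          push_cast at h4
          have h6 : ((j : ℝ) + 1) * ‖c (j + 1)‖ ≤ 1 := by
            rw [le_div_iff₀ (by positivity)] at h4
            linarith
          calc ((j : ℝ) + 1) * (‖c (j + 1)‖ * ‖cf 1 c (n - j)‖) = ((j : ℝ) + 1) * ‖c (j + 1)‖ * ‖cf 1 c (n - j)‖ := by ring
            _ ≤ 1 * 1 := mul_le_mul h6 h5 (norm_nonneg _) zero_le_one
            _ = 1 := one_mul 1
        refine (Finset.sum_le_sum h3).trans (le_of_eq ?_)
        rw [Finset.sum_const, Finset.card_range, nsmul_eq_mul, mul_one]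
        push_cast
        ring
      rw [coeff_EX]
      have h7 : (0 : ℝ) < (n : ℝ) + 1 := by positivity
      nlinarith

end Pool.Agent.H29.AH
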