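import Mathlib
import Pool.Agent.H29.AH.Fb

/-!
# MP_103a5c_AH, block FIN, part c: the algebraic core
-/

open Finset PowerSeries
open scoped Real ComplexConjugate

namespace Pool.Agent.H29.AH

open Pool.Agent.H14.GP

lemma two_eq : (2 : ℂ⟦X⟧) = C (2 : ℂ) := (map_ofNat (C (R := ℂ)) 2).symm

/-- `1/(1 - z X)` -/
noncomputable def gm (z : ℂ) : ℂ⟦X⟧ := PowerSeries.mk fun n => z ^ n

lemma gm_mul (z : ℂ) : (1 - C z * X) * gm z = 1 := geom_mul z

lemma coeff_gm (z : ℂ) (n : ℕ) : coeff n (gm z) = z ^ n := coeff_mk _ _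

lemma EX_zero : EX (fun _ => 0) = 1 := by
  have h : KS (fun _ => (0 : ℂ)) = 0 := by
    ext n
    rw [coeff_KS]
    split_ifs <;> simp
  refine ode_unique (A := 0) ?_ (by simp) (by rw [const_EX, map_one])
  rw [deriv_EX, h, map_zero, zero_mul]

lemma EX_neg_geom (z : ℂ) : EX (fun j => -(z ^ j / (j : ℂ))) = 1 - C z * X := by
  have h1 := EX_add (fun j => z ^ j / (j : ℂ)) (fun j => -(z ^ j / (j : ℂ)))
  have h2 : (fun j : ℕ => z ^ j / (j : ℂ) + -(z ^ j / (j : ℂ))) = fun _ => 0 := by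
    funext j
    ring
  rw [h2, EX_zero, EX_geom] at h1
  have h3 := gm_mul z
  unfold gm at h3
  calc EX (fun j => -(z ^ j / (j : ℂ))) = ((1 - C z * X) * (PowerSeries.mk fun n => z ^ n)) * EX (fun j => -(z ^ j / (j : ℂ))) := by
        rw [h3, one_mul]
    _ = (1 - C z * X) * ((PowerSeries.mk fun n => z ^ n) * EX (fun j => -(z ^ j / (j : ℂ)))) := by ring
    _ = 1 - C z * X := by rw [← h1, mul_one]

lemma harm_le {M : ℕ} (hM : 1 ≤ M) : ∑ j ∈ (Finset.range M).filter (fun j => 1 ≤ j), 1 / (j : ℝ) ≤ 1 + Real.log M := by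
  have h1 := harmonic_le_one_add_log M
  refine le_trans ?_ h1
  unfold harmonic
  push_cast
  rw [Finset.sum_filter]
  obtain ⟨N, rfl⟩ : ∃ N, M = N + 1 := ⟨M - 1, by omega⟩
  rw [Finset.sum_range_succ']
  simp only [not_le, Nat.lt_one_iff, nonpos_iff_eq_zero, one_ne_zero, if_false, add_zero, Nat.one_le_iff_ne_zero, ne_eq,
    not_true_eq_false, Nat.add_eq_zero_iff, and_false, not_false_eq_true, if_true]
  rw [Finset.sum_range_succ]
  have h2 : (0 : ℝ) ≤ ((N : ℝ) + 1)⁻¹ := by positivity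
  have h3 : ∑ x ∈ Finset.range N, 1 / (((x + 1 : ℕ) : ℝ)) = ∑ x ∈ Finset.range N, ((x : ℝ) + 1)⁻¹ := by
    refine Finset.sum_congr rfl fun x _ => ?_
    push_cast
    rw [one_div]
  rw [h3]
  linarith

/-- norm of `KS ε` for `|ε_j| ≤ K/(jM)` -/
lemma nrm_KS_le {M : ℕ} (hM : 1 ≤ M) {K : ℝ} (hK : 0 ≤ K) {e : ℕ → ℂ} (he : ∀ j, 1 ≤ j → j < M → ‖e j‖ ≤ K / (j * M)) :
    nrm M (KS e) ≤ K * (1 + Real.log M) / M := by
  have hMr : (0 : ℝ) < M := by exact_mod_cast hM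
  have h1 : nrm M (KS e) ≤ ∑ j ∈ (Finset.range M).filter (fun j => 1 ≤ j), (K / M) * (1 / (j : ℝ)) := by
    unfold nrm
    rw [Finset.sum_filter]
    refine Finset.sum_le_sum fun j hj => ?_
    have hj' := Finset.mem_range.1 hj
    rw [coeff_KS]
    by_cases h : j = 0
    · rw [if_pos h, norm_zero, if_neg (by omega)]
    · rw [if_neg h, if_pos (by omega)]
      refine (he j (by omega) hj').trans (le_of_eq ?_)
      have hjr : (j : ℝ) ≠ 0 := by exact_mod_cast h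
      field_simp
  refine h1.trans ?_
  rw [← Finset.mul_sum]
  calc K / M * ∑ j ∈ (Finset.range M).filter (fun j => 1 ≤ j), 1 / (j : ℝ) ≤ K / M * (1 + Real.log M) :=
        mul_le_mul_of_nonneg_left (harm_le hM) (by positivity)
    _ = K * (1 + Real.log M) / M := by ring

lemma exp_sub_one_le {x : ℝ} (h0 : 0 ≤ x) (h1 : x ≤ 1) : Real.exp x - 1 ≤ 2 * x := by
  have h := Real.exp_bound' h0 h1 (n := 1) one_pos
  simp only [Finset.sum_range_one, pow_zero, Nat.factorial_zero, Nat.cast_one, div_one, pow_one, Nat.factorial_one,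
    mul_one] at h
  linarith

lemma nrm_EX_le {M : ℕ} (hM : 1 ≤ M) {K : ℝ} (hK : 0 ≤ K) {e : ℕ → ℂ} (he : ∀ j, 1 ≤ j → j < M → ‖e j‖ ≤ K / (j * M))
    (hs : K * (1 + Real.log M) / M ≤ 1) : nrm M (EX e - 1) ≤ 2 * (K * (1 + Real.log M) / M) := by
  have h1 := nrm_EX_sub_one M e
  have h2 := nrm_KS_le hM hK he
  have h3 : Real.exp (nrm M (KS e)) - 1 ≤ 2 * nrm M (KS e) := exp_sub_one_le (nrm_nonneg _ _) (h2.trans hs)
  linarith

/-- the ideal `W`: `(1 - z X)/(1 - c X)`, `c = (z + z')/2` -/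
lemma nrm_Wid {M : ℕ} {z z' : ℂ} (hM : 1 ≤ M) (hz : ‖z‖ ≤ 1) (hz' : ‖z'‖ ≤ 1) (hzz : ‖z' - z‖ ≤ 4 / M) :
    nrm M ((1 - C z * X) * gm ((z + z') / 2)) ≤ 3 := by
  have hMr : (0 : ℝ) < M := by exact_mod_cast hM
  set c := (z + z') / 2 with hc
  have hcn : ‖c‖ ≤ 1 := by
    rw [hc, norm_div, Complex.norm_ofNat]
    have := norm_add_le z z'
    linarith
  have h1 : ∀ n ∈ Finset.range M, ‖coeff n ((1 - C z * X) * gm c)‖ ≤ (if n = 0 then 1 else 0) + 2 / M := by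
    intro n _
    rw [sub_mul, one_mul, map_sub, mul_assoc, coeff_C_mul, coeff_gm]
    rcases n with _ | n
    · rw [coeff_zero_X_mul, mul_zero, sub_zero, pow_zero, norm_one, if_pos rfl]
      have : (0 : ℝ) ≤ 2 / M := by positivity
      linarith
    · rw [coeff_succ_X_mul, coeff_gm, if_neg (Nat.succ_ne_zero n), zero_add]
      have e : c ^ (n + 1) - z * c ^ n = c ^ n * ((z' - z) / 2) := by
        rw [pow_succ, hc]
        ring
      have e2 : ‖(z' - z) / 2‖ = ‖z' - z‖ / 2 := by rw [norm_div, Complex.norm_ofNat]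
      rw [e, norm_mul, norm_pow, e2]
      calc ‖c‖ ^ n * (‖z' - z‖ / 2) ≤ 1 * (4 / M / 2) := by
            refine mul_le_mul (pow_le_one₀ (norm_nonneg _) hcn) (by linarith) (by positivity) zero_le_one
        _ = 2 / M := by ring
  unfold nrm
  refine (Finset.sum_le_sum h1).trans ?_
  rw [Finset.sum_add_distrib, Finset.sum_ite_eq', if_pos (Finset.mem_range.2 (by omega)), Finset.sum_const,
    Finset.card_range, nsmul_eq_mul, mul_div_cancel₀ _ hMr.ne']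
  norm_num

/-- bound for `W = 2/(1 + V)`, `V = ω exp(∑ d_j X^j)`, `d_j` close to `(z^j - z'^j)/j` -/
lemma nrm_W {M : ℕ} {z z' ω : ℂ} (hM : 20 ≤ M) (hz : ‖z‖ ≤ 1) (hz' : ‖z'‖ ≤ 1) (hzz : ‖z' - z‖ ≤ 4 / M)
    (hω : ‖ω - 1‖ ≤ 1 / M) (hω1 : ‖ω‖ = 1) {K : ℝ} (hK : 0 ≤ K) (hs : K * (1 + Real.log M) / M ≤ 1 / 40) {d : ℕ → ℂ}
    (hd : ∀ j, 1 ≤ j → j < M → ‖d j - (z ^ j - z' ^ j) / j‖ ≤ K / (j * M)) {W : ℂ⟦X⟧}
    (hW : W * (1 + C ω * EX d) = 2) : nrm M W ≤ 6 := by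
  have hMr : (20 : ℝ) ≤ M := by exact_mod_cast hM
  have hM1 : 1 ≤ M := by omega
  set e : ℕ → ℂ := fun j => d j - (z ^ j - z' ^ j) / j with he
  set Wi : ℂ⟦X⟧ := (1 - C z * X) * gm ((z + z') / 2) with hWi
  set Vi : ℂ⟦X⟧ := (1 - C z' * X) * gm z with hVi
  have hEd : EX d = Vi * EX e := by
    have h1 : EX d = EX (fun j => (z ^ j / (j : ℂ) + -(z' ^ j / (j : ℂ))) + e j) := by
      congr 1
      funext j
      rw [he]
      ring
    rw [h1, EX_add (fun j => z ^ j / (j : ℂ) + -(z' ^ j / (j : ℂ))) e, EX_add (fun j => z ^ j / (j : ℂ)) (fun j => -(z' ^ j / (j : ℂ))),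
      EX_geom, EX_neg_geom, hVi]
    unfold gm
    ring
  set g : ℂ⟦X⟧ := C ω * EX e - 1 with hg
  have hnW := nrm_Wid hM1 hz hz' hzz
  rw [← hWi] at hnW
  have hng : nrm M g ≤ 1 / 10 := by
    have e1 : g = C ω * (EX e - 1) + C (ω - 1) := by
      rw [hg, map_sub, map_one]
      ring
    rw [e1]
    have h2 := nrm_EX_le hM1 hK hd (hs.trans (by norm_num))
    have h3 := nrm_C_le M (ω - 1)
    have h4 : (1 : ℝ) / M ≤ 1 / 20 := one_div_le_one_div_of_le (by norm_num) hMr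
    calc nrm M (C ω * (EX e - 1) + C (ω - 1)) ≤ nrm M (C ω * (EX e - 1)) + nrm M (C (ω - 1)) := nrm_add _ _ _
      _ = nrm M (EX e - 1) + nrm M (C (ω - 1)) := by rw [nrm_C_mul, hω1, one_mul]
      _ ≤ 1 / 10 := by linarith
  -- `Wi (1 + V) = 2 (1 + g')`
  have hid : Wi * (1 + Vi) = 2 := by
    have h1 := gm_mul z
    have h2 := gm_mul ((z + z') / 2)
    have h3 : (1 : ℂ⟦X⟧) + Vi = 2 * ((1 - C ((z + z') / 2) * X) * gm z) := by
      have h4 : (C ((z + z') / 2) : ℂ⟦X⟧) * 2 = C z + C z' := by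
        rw [← map_add, two_eq, ← map_mul]
        congr 1
        ring
      have h5 : (1 : ℂ⟦X⟧) = (1 - C z * X) * gm z := h1.symm
      calc (1 : ℂ⟦X⟧) + Vi = (1 - C z * X) * gm z + (1 - C z' * X) * gm z := by rw [← h5]
        _ = (2 - (C z + C z') * X) * gm z := by ring
        _ = (2 - (C ((z + z') / 2) * 2) * X) * gm z := by rw [h4]
        _ = 2 * ((1 - C ((z + z') / 2) * X) * gm z) := by ring
    rw [h3, hWi]
    calc (1 - C z * X) * gm ((z + z') / 2) * (2 * ((1 - C ((z + z') / 2) * X) * gm z))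
        = 2 * ((1 - C z * X) * gm z) * ((1 - C ((z + z') / 2) * X) * gm ((z + z') / 2)) := by ring
      _ = 2 := by rw [h1, h2]; ring
  have hWV : Wi * Vi = 2 - Wi := by
    have : Wi + Wi * Vi = 2 := by rw [← hid]; ring
    exact eq_sub_of_add_eq (by rw [add_comm]; exact this)
  have hV : (1 : ℂ⟦X⟧) + C ω * EX d = 1 + Vi + Vi * g := by
    rw [hEd, hg]
    ring
  have hkey : 2 * W = 2 * Wi - (2 - Wi) * g * W := by
    have h1 : Wi * (W * (1 + C ω * EX d)) = 2 * Wi := by rw [hW]; ring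
    rw [hV] at h1
    have h2 : Wi * (W * (1 + Vi + Vi * g)) = W * (Wi * (1 + Vi)) + (Wi * Vi) * g * W := by ring
    rw [h2, hid, hWV] at h1
    rw [← h1]
    ring
  have h2n : nrm M (2 * W) = 2 * nrm M W := by
    rw [two_eq, nrm_C_mul]
    norm_num
  have h2i : nrm M (2 * Wi) = 2 * nrm M Wi := by
    rw [two_eq, nrm_C_mul]
    norm_num
  have h3 : nrm M (2 - Wi) ≤ 5 := by
    refine (nrm_sub _ _ _).trans ?_
    have : nrm M (2 : ℂ⟦X⟧) ≤ 2 := by
      rw [two_eq]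
      exact (nrm_C_le M 2).trans (by norm_num)
    linarith
  have h4 : 2 * nrm M W ≤ 6 + 5 * (1 / 10) * nrm M W := by
    rw [← h2n, hkey]
    refine (nrm_sub _ _ _).trans (add_le_add (by rw [h2i]; linarith) ?_)
    refine (nrm_mul _ _ _).trans (mul_le_mul_of_nonneg_right ?_ (nrm_nonneg _ _))
    exact (nrm_mul _ _ _).trans (mul_le_mul h3 hng (nrm_nonneg _ _) (by norm_num))
  linarith [nrm_nonneg M W]

end Pool.Agent.H29.AH
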