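import Mathlib
import Pool.Agent.H29.AH.Fc

/-!
# MP_103a5c_AH, block FIN, part d: the algebraic core, conclusion
-/

open Finset PowerSeries
open scoped Real ComplexConjugate

namespace Pool.Agent.H29.AH

open Pool.Agent.H14.GP

/-- `ρ = e^{-iπ/M}` -/
noncomputable def rhoM (M : ℕ) : ℂ := Complex.exp (-((π / M : ℝ) : ℂ) * Complex.I)

lemma norm_rhoM (M : ℕ) : ‖rhoM M‖ = 1 := by
  unfold rhoM
  rw [← Complex.ofReal_neg, Complex.norm_exp_ofReal_mul_I]

lemma rhoM_sub_one {M : ℕ} (hM : 1 ≤ M) : ‖rhoM M - 1‖ ≤ 4 / M := by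
  have hMr : (0 : ℝ) < M := by exact_mod_cast hM
  unfold rhoM
  rw [← Complex.ofReal_neg, mul_comm, ]
  have h := Real.norm_exp_I_mul_ofReal_sub_one_le (x := -(π / M))
  refine h.trans ?_
  rw [Real.norm_eq_abs, abs_neg, abs_of_pos (by positivity)]
  exact div_le_div_of_nonneg_right Real.pi_le_four hMr.le

lemma re_rhoM_pow (M n : ℕ) : (rhoM M ^ n).re = Real.cos (π * n / M) := by
  unfold rhoM
  rw [← Complex.exp_nat_mul, Complex.exp_re]
  have h1 : ((n : ℂ) * (-((π / M : ℝ) : ℂ) * Complex.I)).re = 0 := by simp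
  have h2 : ((n : ℂ) * (-((π / M : ℝ) : ℂ) * Complex.I)).im = -(π * n / M) := by
    simp
    ring
  rw [h1, h2, Real.exp_zero, one_mul, Real.cos_neg]

lemma sum_cos {M : ℕ} (hM : 1 ≤ M) : ∑ n ∈ Finset.range M, Real.cos (π * n / M) = 1 := by
  have hMr : (0 : ℝ) < M := by exact_mod_cast hM
  have h1 : ∑ n ∈ Finset.range (M + 1), Real.cos (π * n / M) = 0 := by
    have h2 := Finset.sum_range_reflect (fun n : ℕ => Real.cos (π * n / M)) (M + 1)
    have h3 : ∑ j ∈ Finset.range (M + 1), Real.cos (π * ((M + 1 - 1 - j : ℕ) : ℝ) / M) =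
        ∑ j ∈ Finset.range (M + 1), -Real.cos (π * j / M) := by
      refine Finset.sum_congr rfl fun j hj => ?_
      have hj' := Finset.mem_range.1 hj
      rw [Nat.add_sub_cancel, Nat.cast_sub (by omega)]
      rw [show π * ((M : ℝ) - j) / M = π - π * j / M by field_simp, Real.cos_pi_sub]
    rw [h3, Finset.sum_neg_distrib] at h2
    linarith
  rw [Finset.sum_range_succ, mul_div_assoc, div_self hMr.ne', mul_one, Real.cos_pi] at h1
  linarith

lemma EX_conj (a : ℕ → ℂ) (n : ℕ) : coeff n (EX fun j => conj (a j)) = conj (coeff n (EX a)) := by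
  rw [coeff_EX, coeff_EX]
  exact (cf_map (Complex.conjAe : ℂ →ₐ[ℝ] ℂ) 1 a n).symm

lemma SMf_conj (M : ℕ) (a : ℕ → ℂ) : SMf M (EX fun j => conj (a j)) = conj (SMf M (EX a)) := by
  unfold SMf
  rw [map_sum]
  exact Finset.sum_congr rfl fun n _ => EX_conj a n

lemma SMf_le {M : ℕ} {f : ℂ⟦X⟧} (hf : ∀ m < M, ‖coeff m f‖ ≤ 1) : ‖SMf M f‖ ≤ M := by
  unfold SMf
  refine (norm_sum_le _ _).trans ((Finset.sum_le_sum fun m hm => hf m (Finset.mem_range.1 hm)).trans (le_of_eq ?_))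
  rw [Finset.sum_const, Finset.card_range, nsmul_eq_mul, mul_one]

/-- the error terms -/
lemma SMf_R {M : ℕ} (hM : 20 ≤ M) {ω : ℂ} (hω1 : ‖ω‖ = 1) {K : ℝ} (hK : 0 ≤ K) (hs : K * (1 + Real.log M) / M ≤ 1)
    {b e : ℕ → ℂ} (hb : ∀ j, 1 ≤ j → j < M → ‖b j‖ ≤ 1 / (j : ℝ)) (he : ∀ j, 1 ≤ j → j < M → ‖e j‖ ≤ K / (j * M))
    {W : ℂ⟦X⟧} (hW : nrm M W ≤ 6) : ‖SMf M (C ω * EX b * (W * (1 - EX e)))‖ ≤ 12 * K * (1 + Real.log M) := by
  have hMr : (20 : ℝ) ≤ M := by exact_mod_cast hM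
  have h1 := SMf_mul_le (M := M) (B := 1) (f := EX b) (fun m hm => coeff_EX_le_one hb m hm) zero_le_one
    (W * (1 - EX e))
  have h2 : nrm M (W * (1 - EX e)) ≤ 6 * (2 * (K * (1 + Real.log M) / M)) := by
    refine (nrm_mul _ _ _).trans (mul_le_mul hW ?_ (nrm_nonneg _ _) (by norm_num))
    rw [show (1 : ℂ⟦X⟧) - EX e = -(EX e - 1) by ring, nrm_neg]
    exact nrm_EX_le (by omega) hK he hs
  rw [mul_assoc, SMf_C_mul, norm_mul, hω1, one_mul]
  refine h1.trans ?_
  calc (M : ℝ) * 1 * nrm M (W * (1 - EX e)) ≤ M * 1 * (6 * (2 * (K * (1 + Real.log M) / M))) :=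
        mul_le_mul_of_nonneg_left h2 (by positivity)
    _ = 12 * K * (1 + Real.log M) := by field_simp; ring

theorem core_alg {K : ℝ} (hK : 0 ≤ K) {M : ℕ} (hM : 20 ≤ M) (hs : 2 * K * (1 + Real.log M) / M ≤ 1 / 40) {ω : ℂ} {a d c0 : ℕ → ℂ}
    (hω1 : ‖ω‖ = 1) (hω : ‖ω - 1‖ ≤ 1 / M) (hc0 : ∀ j, 1 ≤ j → j < M → c0 j = 1 / (j : ℂ))
    (ha : ∀ j, 1 ≤ j → j < M → ‖a j - rhoM M ^ j / j‖ ≤ K / (j * M)) (ha1 : ∀ j, 1 ≤ j → j < M → ‖a j‖ ≤ 1 / (j : ℝ))
    (hd : ∀ j, 1 ≤ j → j < M → ‖d j - (1 - rhoM M ^ j) / j‖ ≤ K / (j * M)) {Ψp Ψm : ℂ⟦X⟧}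
    (hm : Ψm * (1 + C ω * EX d) = 1 - C ω * EX d)
    (hp : Ψp * (1 + C ω * EX fun j => -conj (d j)) = 1 - C ω * EX fun j => -conj (d j)) :
    4 * (M : ℝ) - 2 * (SMf M ((EX c0 + C ω * EX fun j => conj (a j)) * Ψp) -
      conj ω * SMf M ((EX a + C ω * EX c0) * Ψm)).re ≤ (8 + 104 * K) * (1 + Real.log M) := by
  have hMr : (20 : ℝ) ≤ M := by exact_mod_cast hM
  have hM1 : 1 ≤ M := by omega
  have hlog : 0 ≤ Real.log M := Real.log_nonneg (by linarith)
  have hKs : K * (1 + Real.log M) / M ≤ 1 / 40 := by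
    refine le_trans ?_ hs
    gcongr
    linarith
  -- W's
  have hWm : (1 + Ψm) * (1 + C ω * EX d) = 2 := by
    rw [add_mul, hm]
    ring
  have hWp : (1 + Ψp) * (1 + C ω * EX fun j => -conj (d j)) = 2 := by
    rw [add_mul, hp]
    ring
  have nm : nrm M (1 + Ψm) ≤ 6 := by
    refine nrm_W (z := 1) (z' := rhoM M) hM (by simp) (norm_rhoM M).le (rhoM_sub_one hM1) hω hω1 hK hKs (fun j h1 h2 => ?_) hWm
    rw [one_pow]
    exact hd j h1 h2
  have np : nrm M (1 + Ψp) ≤ 6 := by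
    refine nrm_W (z := conj (rhoM M)) (z' := 1) hM (by rw [RCLike.norm_conj, norm_rhoM]) (by simp) ?_ hω hω1 hK hKs
      (fun j h1 h2 => ?_) hWp
    · rw [← RCLike.norm_conj, map_sub, map_one, Complex.conj_conj, norm_sub_rev]
      exact rhoM_sub_one hM1
    · have e : -conj (d j) - (conj (rhoM M) ^ j - 1 ^ j) / j = -conj (d j - (1 - rhoM M ^ j) / j) := by
        rw [map_sub, map_div₀, map_sub, map_one, map_pow, Complex.conj_natCast, one_pow]
        ring
      rw [e, norm_neg, RCLike.norm_conj]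
      exact hd j h1 h2
  -- the two identities
  have key : ∀ (A1 A2 V Ψ : ℂ⟦X⟧), Ψ * (1 + V) = 1 - V → (A1 + A2) * Ψ = (A1 - A2) + (1 + Ψ) * (A2 - V * A1) := by
    intro A1 A2 V Ψ h
    have h1 : Ψ = 1 - V - Ψ * V := by rw [← h]; ring
    have h2 : (A1 + A2) * Ψ - ((A1 - A2) + (1 + Ψ) * (A2 - V * A1)) = A1 * (Ψ * (1 + V) - (1 - V)) := by ring
    rw [h, sub_self, mul_zero] at h2
    exact sub_eq_zero.1 h2
  set em : ℕ → ℂ := fun j => d j + a j - c0 j with hem
  set ep : ℕ → ℂ := fun j => -conj (d j) + c0 j - conj (a j) with hep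
  have hVm : C ω * EX d * EX a = C ω * EX c0 * EX em := by
    rw [mul_assoc, mul_assoc, ← EX_add, ← EX_add]
    congr 2
    funext j
    rw [hem]
    ring
  have hVp : (C ω * EX fun j => -conj (d j)) * EX c0 = (C ω * EX fun j => conj (a j)) * EX ep := by
    rw [mul_assoc, mul_assoc, ← EX_add, ← EX_add]
    congr 2
    funext j
    rw [hep]
    ring
  have hemb : ∀ j, 1 ≤ j → j < M → ‖em j‖ ≤ 2 * K / (j * M) := by
    intro j h1 h2
    have hj0 : (j : ℂ) ≠ 0 := by exact_mod_cast (by omega : j ≠ 0)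
    have e : em j = (d j - (1 - rhoM M ^ j) / j) + (a j - rhoM M ^ j / j) := by
      rw [hem]
      simp only
      rw [hc0 j h1 h2]
      field_simp
      ring
    rw [e]
    refine (norm_add_le _ _).trans ?_
    have := hd j h1 h2
    have := ha j h1 h2
    calc _ ≤ K / (j * M) + K / (j * M) := by linarith
      _ = 2 * K / (j * M) := by ring
  have hepb : ∀ j, 1 ≤ j → j < M → ‖ep j‖ ≤ 2 * K / (j * M) := by
    intro j h1 h2
    have e : ep j = -conj (em j) := by
      rw [hep, hem]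
      simp only
      rw [hc0 j h1 h2]
      simp only [map_sub, map_add, map_div₀, map_one, Complex.conj_natCast]
      ring
    rw [e, norm_neg, RCLike.norm_conj]
    exact hemb j h1 h2
  have hc0n : ∀ j, 1 ≤ j → j < M → ‖c0 j‖ ≤ 1 / (j : ℝ) := by
    intro j h1 h2
    rw [hc0 j h1 h2, norm_div, norm_one, Complex.norm_natCast]
  have rm := SMf_R hM hω1 (by positivity : (0 : ℝ) ≤ 2 * K) (hs.trans (by norm_num)) hc0n hemb nm
  have rp := SMf_R hM hω1 (by positivity : (0 : ℝ) ≤ 2 * K) (hs.trans (by norm_num)) (b := fun j => conj (a j))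
    (fun j h1 h2 => by rw [RCLike.norm_conj]; exact ha1 j h1 h2) hepb np
  set Rm := SMf M (C ω * EX c0 * ((1 + Ψm) * (1 - EX em))) with hRm
  set Rp := SMf M ((C ω * EX fun j => conj (a j)) * ((1 + Ψp) * (1 - EX ep))) with hRp
  have em1 : SMf M ((EX a + C ω * EX c0) * Ψm) = SMf M (EX a) - ω * SMf M (EX c0) + Rm := by
    rw [key _ _ _ _ hm, SMf_add, SMf_sub, SMf_C_mul, hRm]
    congr 2
    rw [hVm]
    ring
  have ep1 : SMf M ((EX c0 + C ω * EX fun j => conj (a j)) * Ψp) =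
      SMf M (EX c0) - ω * SMf M (EX fun j => conj (a j)) + Rp := by
    rw [key _ _ _ _ hp, SMf_add, SMf_sub, SMf_C_mul, hRp]
    congr 2
    rw [hVp]
    ring
  have hSc0 : SMf M (EX c0) = M := by
    unfold SMf
    have h1 : ∀ m ∈ Finset.range M, coeff m (EX c0) = 1 := by
      intro m hm'
      rw [EX_congr_lt (M := M) (c' := fun j => (1 : ℂ) ^ j / (j : ℂ)) (fun j h1 h2 => by
        rw [hc0 j (by omega) h2, one_pow]) m (Finset.mem_range.1 hm'), EX_geom, coeff_mk, one_pow]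
    rw [Finset.sum_congr rfl h1, Finset.sum_const, Finset.card_range, nsmul_eq_mul, mul_one]
  set S := SMf M (EX a) with hS
  have hSn : ‖S‖ ≤ M := SMf_le fun m hm' => coeff_EX_le_one ha1 m hm'
  -- the real part of `S`
  have hSre : S.re ≤ 1 + 2 * K * (1 + Real.log M) := by
    set η : ℕ → ℂ := fun j => a j - rhoM M ^ j / j with hη
    have e : EX a = gm (rhoM M) * EX η := by
      have h1 : EX a = EX (fun j => rhoM M ^ j / (j : ℂ) + η j) := by
        congr 1
        funext j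
        rw [hη]
        ring
      rw [h1, EX_add, EX_geom]
      rfl
    have e2 : S = SMf M (gm (rhoM M)) + SMf M (gm (rhoM M) * (EX η - 1)) := by
      rw [hS, e, ← SMf_add]
      congr 1
      ring
    have h3 : ‖SMf M (gm (rhoM M) * (EX η - 1))‖ ≤ 2 * K * (1 + Real.log M) := by
      have h4 := SMf_mul_le (M := M) (B := 1) (f := gm (rhoM M)) (fun m _ => by
        rw [coeff_gm, norm_pow, norm_rhoM, one_pow]) zero_le_one (EX η - 1)
      have h5 := nrm_EX_le hM1 hK ha (hKs.trans (by norm_num))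
      refine h4.trans ?_
      calc (M : ℝ) * 1 * nrm M (EX η - 1) ≤ M * 1 * (2 * (K * (1 + Real.log M) / M)) :=
            mul_le_mul_of_nonneg_left h5 (by positivity)
        _ = 2 * K * (1 + Real.log M) := by field_simp
    have h6 : (SMf M (gm (rhoM M))).re = 1 := by
      unfold SMf
      rw [Complex.re_sum, ← sum_cos hM1]
      refine Finset.sum_congr rfl fun n _ => ?_
      rw [coeff_gm, re_rhoM_pow]
    rw [e2, Complex.add_re, h6]
    have := Complex.re_le_norm (SMf M (gm (rhoM M) * (EX η - 1)))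
    linarith
  -- assembly
  have hωω : conj ω * ω = 1 := by
    rw [mul_comm, Complex.mul_conj, Complex.normSq_eq_norm_sq, hω1]
    norm_num
  have htot : SMf M ((EX c0 + C ω * EX fun j => conj (a j)) * Ψp) - conj ω * SMf M ((EX a + C ω * EX c0) * Ψm) =
      2 * M - (ω * conj S + conj ω * S) + Rp - conj ω * Rm := by
    rw [em1, ep1, hSc0, SMf_conj, ← hS]
    have : conj ω * (S - ω * M + Rm) = conj ω * S - conj ω * ω * M + conj ω * Rm := by ring
    rw [this, hωω]
    ring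
  rw [htot]
  have h7 : (2 * (M : ℂ) - (ω * conj S + conj ω * S) + Rp - conj ω * Rm).re =
      2 * M - 2 * (conj ω * S).re + Rp.re - (conj ω * Rm).re := by
    have h8 : (ω * conj S).re = (conj ω * S).re := by
      rw [← Complex.conj_re (ω * conj S), map_mul, Complex.conj_conj]
    simp only [Complex.sub_re, Complex.add_re]
    rw [h8]
    have h9 : (2 * (M : ℂ)).re = 2 * M := by simp
    rw [h9]
    ring
  rw [h7]
  have h10 : (conj ω * S).re ≤ 2 + 2 * K * (1 + Real.log M) := by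
    have e : conj ω * S = S + (conj ω - 1) * S := by ring
    rw [e, Complex.add_re]
    have h11 : ((conj ω - 1) * S).re ≤ 1 := by
      refine (Complex.re_le_norm _).trans ?_
      rw [norm_mul]
      have h12 : ‖conj ω - 1‖ ≤ 1 / M := by
        rw [← RCLike.norm_conj, map_sub, map_one, Complex.conj_conj]
        exact hω
      calc ‖conj ω - 1‖ * ‖S‖ ≤ 1 / M * M := mul_le_mul h12 hSn (norm_nonneg _) (by positivity)
        _ = 1 := by field_simp
    linarith
  have h13 : -Rp.re ≤ 12 * (2 * K) * (1 + Real.log M) := by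
    have := Complex.abs_re_le_norm Rp
    have h14 := (abs_le.1 (this.trans rp)).1
    linarith
  have h15 : (conj ω * Rm).re ≤ 12 * (2 * K) * (1 + Real.log M) := by
    refine (Complex.re_le_norm _).trans ?_
    rw [norm_mul, RCLike.norm_conj, hω1, one_mul]
    exact rm
  nlinarith [mul_nonneg hK hlog]

end Pool.Agent.H29.AH
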