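import Mathlib
import Pool.Agent.H29.AH.Fd

/-!
# MP_103a5c_AH, block FIN, part e: polynomials close to `tan`
-/

open Finset PowerSeries
open scoped Real ComplexConjugate Topology

namespace Pool.Agent.H29.AH

open Pool.Agent.H14.GP

/-- Taylor series at `w₀` -/
noncomputable def Tay (w₀ : ℂ) (f : ℂ → ℂ) : ℂ⟦X⟧ := PowerSeries.mk fun n => iteratedDeriv n f w₀ / (n.factorial : ℂ)

lemma coeff_Tay (w₀ : ℂ) (f : ℂ → ℂ) (n : ℕ) : coeff n (Tay w₀ f) = iteratedDeriv n f w₀ / (n.factorial : ℂ) := coeff_mk _ _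

lemma Tay_congr {w₀ : ℂ} {f g : ℂ → ℂ} (h : f =ᶠ[𝓝 w₀] g) : Tay w₀ f = Tay w₀ g := by
  ext n
  rw [coeff_Tay, coeff_Tay, h.iteratedDeriv_eq]

lemma Tay_mul {w₀ : ℂ} {f g : ℂ → ℂ} (hf : ∀ n : ℕ, ContDiffAt ℂ n f w₀) (hg : ∀ n : ℕ, ContDiffAt ℂ n g w₀) :
    Tay w₀ (f * g) = Tay w₀ f * Tay w₀ g := by
  ext n
  rw [coeff_Tay, iteratedDeriv_mul (hf n) (hg n), coeff_mul, Finset.Nat.sum_antidiagonal_eq_sum_range_succ_mk,
    Finset.sum_div]
  refine Finset.sum_congr rfl fun i hi => ?_
  have hi' : i ≤ n := by have := Finset.mem_range.1 hi; omega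
  rw [coeff_Tay, coeff_Tay]
  have h1 : (n.choose i : ℂ) * (i.factorial : ℂ) * ((n - i).factorial : ℂ) = (n.factorial : ℂ) := by
    exact_mod_cast Nat.choose_mul_factorial_mul_factorial hi'
  have h2 : (n.factorial : ℂ) ≠ 0 := by exact_mod_cast Nat.factorial_ne_zero n
  have h3 : (i.factorial : ℂ) ≠ 0 := by exact_mod_cast Nat.factorial_ne_zero i
  have h4 : ((n - i).factorial : ℂ) ≠ 0 := by exact_mod_cast Nat.factorial_ne_zero (n - i)
  rw [div_mul_div_comm, div_eq_div_iff h2 (mul_ne_zero h3 h4), ← h1]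
  ring

/-- `V(w) = exp (iπ w)` -/
noncomputable def Vf (w : ℂ) : ℂ := Complex.exp (Complex.I * π * w)

lemma Vf_smooth (n : ℕ) (w : ℂ) : ContDiffAt ℂ n Vf w := by
  unfold Vf
  exact (Complex.contDiff_exp.comp (contDiff_const.mul contDiff_id)).contDiffAt

lemma iter_Vf (n : ℕ) (w : ℂ) : iteratedDeriv n Vf w = (Complex.I * π) ^ n * Vf w := by
  induction n generalizing w with
  | zero => rw [iteratedDeriv_zero, pow_zero, one_mul]
  | succ n ih =>
    rw [iteratedDeriv_succ]
    have h : iteratedDeriv n Vf = fun w => (Complex.I * π) ^ n * Vf w := funext ih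
    rw [h]
    have h2 : HasDerivAt (fun w => (Complex.I * π) ^ n * Vf w) ((Complex.I * π) ^ n * (Vf w * (Complex.I * π))) w := by
      unfold Vf
      refine HasDerivAt.const_mul _ ?_
      refine HasDerivAt.cexp ?_
      simpa using (hasDerivAt_id w).const_mul (Complex.I * (π : ℂ))
    rw [h2.deriv, pow_succ]
    ring

lemma Tay_Vf (w₀ : ℂ) : Tay w₀ Vf = C (Vf w₀) * PowerSeries.mk fun n => (Complex.I * π) ^ n / (n.factorial : ℂ) := by
  ext n
  rw [coeff_Tay, iter_Vf, coeff_C_mul, coeff_mk]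
  ring

lemma Tay_one_add (w₀ : ℂ) : Tay w₀ (fun w => 1 + Vf w) = 1 + Tay w₀ Vf := by
  ext n
  rw [map_add, coeff_Tay, coeff_Tay, coeff_one]
  rcases n with _ | n
  · simp
  · rw [if_neg (Nat.succ_ne_zero n), zero_add]
    congr 1
    rw [iteratedDeriv_succ', iteratedDeriv_succ']
    congr 1
    funext w
    rw [deriv_const_add]

lemma Tay_one_sub (w₀ : ℂ) : Tay w₀ (fun w => 1 - Vf w) = 1 - Tay w₀ Vf := by
  ext n
  rw [map_sub, coeff_Tay, coeff_Tay, coeff_one]
  rcases n with _ | n
  · simp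
  · rw [if_neg (Nat.succ_ne_zero n), zero_sub, ← neg_div]
    congr 1
    rw [iteratedDeriv_succ', iteratedDeriv_succ']
    have h : deriv (fun w => 1 - Vf w) = -deriv Vf := by
      funext w
      rw [deriv_const_sub, Pi.neg_apply]
    rw [h, iteratedDeriv_neg]

/-- `Φ(w) = -i tan (πw/2)` -/
noncomputable def Ph (w : ℂ) : ℂ := -Complex.I * Complex.tan (π * w / 2)

lemma cos_ne {w : ℂ} (hw : |w.re| < 1) : Complex.cos (π * w / 2) ≠ 0 := by
  intro h
  rw [Complex.cos_eq_zero_iff] at h
  obtain ⟨k, hk⟩ := h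
  have h1 := congrArg Complex.re hk
  have h2 : ((π : ℂ) * w / 2).re = π * w.re / 2 := by
    rw [show (π : ℂ) * w / 2 = ((π / 2 : ℝ) : ℂ) * w by push_cast; ring, Complex.re_ofReal_mul]
    ring
  have h3 : ((2 * (k : ℂ) + 1) * π / 2).re = (2 * k + 1) * π / 2 := by
    have : ((2 * (k : ℂ) + 1) * π / 2) = (((2 * k + 1) * π / 2 : ℝ) : ℂ) := by push_cast; ring
    rw [this, Complex.ofReal_re]
  rw [h2, h3] at h1
  have h4 : w.re = 2 * k + 1 := by
    have hpi := Real.pi_pos
    have : π * w.re = π * (2 * k + 1) := by linarith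
    exact mul_left_cancel₀ hpi.ne' this
  rw [h4] at hw
  have h5 : |((2 * k + 1 : ℤ) : ℝ)| < 1 := by push_cast; exact hw
  rw [← Int.cast_abs] at h5
  have h6 : |2 * k + 1| < 1 := by exact_mod_cast h5
  rw [Int.abs_lt_one_iff] at h6
  omega

lemma Ph_smooth {w : ℂ} (hw : |w.re| < 1) (n : ℕ) : ContDiffAt ℂ n Ph w := by
  unfold Ph
  refine contDiffAt_const.mul ?_
  have h1 : ContDiffAt ℂ n Complex.tan (π * w / 2) := Complex.contDiffAt_tan.2 (cos_ne hw)
  exact h1.comp w ((contDiffAt_const.mul contDiffAt_id).div_const _)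

lemma Ph_V {w : ℂ} (hw : |w.re| < 1) : Ph w * (1 + Vf w) = 1 - Vf w := by
  have hc := cos_ne hw
  unfold Ph Vf
  rw [Complex.tan_eq_sin_div_cos]
  have e1 : Complex.exp (Complex.I * π * w) = Complex.exp (π * w / 2 * Complex.I) * Complex.exp (π * w / 2 * Complex.I) := by
    rw [← Complex.exp_add]
    congr 1
    ring
  have e2 : Complex.exp (π * w / 2 * Complex.I) = Complex.cos (π * w / 2) + Complex.sin (π * w / 2) * Complex.I :=
    Complex.exp_mul_I _
  have h1 := Complex.sin_sq_add_cos_sq (π * w / 2)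
  rw [e1, e2]
  set s := Complex.sin (π * w / 2)
  set c := Complex.cos (π * w / 2)
  have hI : Complex.I * Complex.I = -1 := Complex.I_mul_I
  field_simp
  have : -(Complex.I * s * (1 + (c + s * Complex.I) ^ 2)) - c * (1 - (c + s * Complex.I) ^ 2) =
      (-(Complex.I * s) - c) + (c + s * Complex.I) ^ 2 * (c - Complex.I * s) := by ring
  have h2 : (c + s * Complex.I) * (c - Complex.I * s) = 1 := by
    have : (c + s * Complex.I) * (c - Complex.I * s) = c ^ 2 - (Complex.I * Complex.I) * s ^ 2 := by ring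
    rw [this, hI]
    linear_combination h1
  have h3 : (c + s * Complex.I) ^ 2 * (c - Complex.I * s) = c + s * Complex.I := by
    rw [pow_two, mul_assoc, h2, mul_one]
  rw [h3] at this
  rw [← sub_eq_zero]
  linear_combination this

/-- Taylor coefficients of a polynomial -/
lemma iter_poly (q : Polynomial ℂ) (n : ℕ) (w : ℂ) :
    iteratedDeriv n (fun w => q.eval w) w = ((Polynomial.derivative^[n] q)).eval w := by
  induction n generalizing w with
  | zero => rfl
  | succ n ih =>
    rw [iteratedDeriv_succ, Function.iterate_succ_apply']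
    have h : iteratedDeriv n (fun w => q.eval w) = fun w => ((Polynomial.derivative^[n] q)).eval w := funext ih
    rw [h, Polynomial.deriv]

lemma taylor_coeff_eq (q : Polynomial ℂ) (n : ℕ) (w : ℂ) :
    (Polynomial.taylor w q).coeff n = iteratedDeriv n (fun w => q.eval w) w / (n.factorial : ℂ) := by
  rw [Polynomial.taylor_coeff, iter_poly, ← Polynomial.factorial_smul_hasseDeriv]
  have h2 : (n.factorial : ℂ) ≠ 0 := by exact_mod_cast Nat.factorial_ne_zero n
  rw [LinearMap.smul_apply, Polynomial.eval_smul, nsmul_eq_mul]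
  field_simp

/-- The composition `Φ(w₀ + κ)` as a power series and its polynomial approximations. -/
theorem near_tan (w₀ : ℝ) (hw : |w₀| ≤ 1 / 4) (κ : ℂ⟦X⟧) (hκ : constantCoeff κ = 0) :
    ∃ Ψ : ℂ⟦X⟧,
      Ψ * (1 + C (Vf w₀) * EX fun j => Complex.I * π * coeff j κ) = 1 - C (Vf w₀) * (EX fun j => Complex.I * π * coeff j κ) ∧
      ∀ (M : ℕ) (η : ℝ), 0 < η → ∃ ε₀ : ℝ, 0 < ε₀ ∧ ∀ p : Polynomial ℂ,
        (∀ w : ℂ, |w.re| ≤ 3 / 4 → ‖p.eval w - Complex.tan (π * w / 2)‖ ≤ ε₀ * Real.exp (π / 2 * |w.im|)) →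
        nrm M (Polynomial.aeval (C (w₀ : ℂ) + κ) (Polynomial.C (-Complex.I) * p) - Ψ) ≤ η := by
  have hs : HasSubst κ := HasSubst.of_constantCoeff_zero' hκ
  have hw1 : |(w₀ : ℂ).re| < 1 := by rw [Complex.ofReal_re]; linarith
  refine ⟨(Tay w₀ Ph).subst κ, ?_, ?_⟩
  · -- the functional equation
    have h1 : Tay w₀ Ph * (1 + Tay w₀ Vf) = 1 - Tay w₀ Vf := by
      rw [← Tay_one_add, ← Tay_one_sub, ← Tay_mul (fun n => Ph_smooth hw1 n) (fun n => contDiffAt_const.add (Vf_smooth n _))]
      apply Tay_congr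
      have h2 : ∀ᶠ w in 𝓝 (w₀ : ℂ), |w.re| < 1 :=
        (Complex.continuous_re.abs.continuousAt).eventually (gt_mem_nhds hw1)
      filter_upwards [h2] with w hw'
      exact Ph_V hw'
    have h3 : (Tay w₀ Ph * (1 + Tay w₀ Vf)).subst κ = (1 - Tay w₀ Vf).subst κ := by rw [h1]
    rw [subst_mul hs, subst_add hs, subst_sub hs, Tay_Vf, subst_mul hs, subst_expa _ hκ] at h3
    have e1 : (1 : ℂ⟦X⟧).subst κ = 1 := by
      rw [← coe_substAlgHom hs, map_one]
    have e2 : (C (Vf w₀) : ℂ⟦X⟧).subst κ = C (Vf w₀) := by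
      have := subst_C (a := κ) (Vf w₀)
      exact this
    rw [e1, e2] at h3
    exact h3
  · intro M η hη
    -- the size
    set B : ℝ := ∑ n ∈ Finset.range M, Real.exp (π / 8) * 4 ^ n * nrm M (κ ^ n) with hB
    have hB0 : 0 ≤ B := Finset.sum_nonneg fun n _ => mul_nonneg (by positivity) (nrm_nonneg _ _)
    refine ⟨η / (B + 1), by positivity, fun p hp => ?_⟩
    set ε₀ := η / (B + 1) with hε₀
    have hε0 : 0 < ε₀ := by positivity
    set q : Polynomial ℂ := Polynomial.C (-Complex.I) * p with hq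
    -- the polynomial as a composition
    have e1 : Polynomial.aeval (C (w₀ : ℂ) + κ) q = ((Polynomial.taylor (w₀ : ℂ) q : Polynomial ℂ) : ℂ⟦X⟧).subst κ := by
      rw [subst_coe hs, Polynomial.taylor_apply, Polynomial.aeval_comp, map_add, Polynomial.aeval_X, Polynomial.aeval_C,
        add_comm κ]
      rfl
    -- coefficients
    have hcl : ∀ n, ‖coeff n (((Polynomial.taylor (w₀ : ℂ) q : Polynomial ℂ) : ℂ⟦X⟧) - Tay w₀ Ph)‖ ≤ ε₀ * Real.exp (π / 8) * 4 ^ n := by
      intro n
      rw [map_sub, Polynomial.coeff_coe, taylor_coeff_eq, coeff_Tay, ← sub_div]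
      have hd : iteratedDeriv n (fun w => q.eval w) w₀ - iteratedDeriv n Ph w₀ =
          iteratedDeriv n (fun w => q.eval w - Ph w) w₀ := by
        rw [← iteratedDeriv_fun_sub]
        · exact (Polynomial.differentiable q).contDiff.contDiffAt
        · exact Ph_smooth hw1 n
      rw [hd, norm_div, Complex.norm_natCast]
      have hreg : ∀ z ∈ Metric.closedBall (w₀ : ℂ) (1 / 4), |z.re| ≤ 1 / 2 ∧ |z.im| ≤ 1 / 4 := by
        intro z hz
        rw [Metric.mem_closedBall, Complex.dist_eq] at hz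
        have h5 := (Complex.abs_re_le_norm (z - w₀)).trans hz
        have h6 := (Complex.abs_im_le_norm (z - w₀)).trans hz
        rw [Complex.sub_re, Complex.ofReal_re] at h5
        rw [Complex.sub_im, Complex.ofReal_im, sub_zero] at h6
        refine ⟨?_, h6⟩
        rw [abs_le] at h5 hw ⊢
        constructor <;> linarith [h5.1, h5.2, hw.1, hw.2]
      have hdiff : DiffContOnCl ℂ (fun w => q.eval w - Ph w) (Metric.ball (w₀ : ℂ) (1 / 4)) := by
        apply DifferentiableOn.diffContOnCl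
        rw [closure_ball _ (by norm_num)]
        intro z hz
        have h7 : |z.re| < 1 := by linarith [(hreg z hz).1]
        refine DifferentiableAt.differentiableWithinAt (DifferentiableAt.sub q.differentiable.differentiableAt ?_)
        exact (Ph_smooth h7 1).differentiableAt (by norm_num)
      have hbd : ∀ z ∈ Metric.sphere (w₀ : ℂ) (1 / 4), ‖q.eval z - Ph z‖ ≤ ε₀ * Real.exp (π / 8) := by
        intro z hz
        obtain ⟨h8, h9⟩ := hreg z (Metric.sphere_subset_closedBall hz)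
        have h10 := hp z (by linarith)
        have e2 : q.eval z - Ph z = -Complex.I * (p.eval z - Complex.tan (π * z / 2)) := by
          rw [hq, Polynomial.eval_mul, Polynomial.eval_C]
          unfold Ph
          ring
        rw [e2, norm_mul, norm_neg, Complex.norm_I, one_mul]
        refine h10.trans (mul_le_mul_of_nonneg_left (Real.exp_le_exp.2 ?_) hε0.le)
        have hpi := Real.pi_pos
        nlinarith
      have h11 := Complex.norm_iteratedDeriv_le_of_forall_mem_sphere_norm_le n (by norm_num : (0 : ℝ) < 1 / 4) hdiff hbd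
      have hf : (0 : ℝ) < n.factorial := by exact_mod_cast Nat.factorial_pos n
      rw [div_le_iff₀ hf]
      refine h11.trans (le_of_eq ?_)
      rw [div_pow, one_pow, one_div, div_inv_eq_mul]
      ring
    -- the norm
    rw [e1, ← subst_sub hs]
    set F : ℂ⟦X⟧ := ((Polynomial.taylor (w₀ : ℂ) q : Polynomial ℂ) : ℂ⟦X⟧) - Tay w₀ Ph with hF
    have hco : ∀ m ∈ Finset.range M, ‖coeff m (F.subst κ)‖ ≤
        ∑ n ∈ Finset.range M, ε₀ * Real.exp (π / 8) * 4 ^ n * ‖coeff m (κ ^ n)‖ := by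
      intro m hm
      rw [coeff_subst' hs, finsum_eq_sum_of_support_subset (s := Finset.range M)]
      · refine (norm_sum_le _ _).trans (Finset.sum_le_sum fun n _ => ?_)
        rw [smul_eq_mul, norm_mul]
        exact mul_le_mul_of_nonneg_right (hcl n) (norm_nonneg _)
      · intro d hd
        rw [Function.mem_support] at hd
        rw [Finset.coe_range, Set.mem_Iio]
        by_contra h
        apply hd
        have : coeff m (κ ^ d) = 0 := by
          apply coeff_of_lt_order
          have h1 : (d : ℕ∞) ≤ (κ ^ d).order := le_order_pow_of_constantCoeff_eq_zero d hκ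
          have hm' := Finset.mem_range.1 hm
          exact lt_of_lt_of_le (by exact_mod_cast (by omega : m < d)) h1
        rw [this, smul_zero]
    calc nrm M (F.subst κ) ≤ ∑ m ∈ Finset.range M, ∑ n ∈ Finset.range M, ε₀ * Real.exp (π / 8) * 4 ^ n * ‖coeff m (κ ^ n)‖ :=
          Finset.sum_le_sum hco
      _ = ε₀ * B := by
          rw [Finset.sum_comm, hB, Finset.mul_sum]
          refine Finset.sum_congr rfl fun n _ => ?_
          rw [← Finset.mul_sum]
          unfold nrm
          ring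
      _ ≤ η := by
          rw [hε₀, div_mul_eq_mul_div, div_le_iff₀ (by positivity)]
          nlinarith

end Pool.Agent.H29.AH
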