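import Mathlib
import Pool.Agent.H29.AH.Fe
import Pool.Agent.H92.RG.Mean2
import Pool.Agent.H98.HF.Pp

/-!
# MP_103a5c_AH, block FIN, part f: the pairings of the cells
-/

open MeasureTheory Set Filter Topology
open scoped Real ContDiff ComplexConjugate

namespace Pool.Agent.H29.AH

open Pool.Agent.H14.GP Pool.Agent.H24.AH Pool.Agent.H67.HF Pool.Agent.H68.AH
open Pool.Agent.H92.RG (tau)

section
variable {M : ℕ} {G : ℕ → ℝ → ℝ} {θ : ℝ}

/-- dilation -/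
lemma dil_int (hθ : 0 < θ) (F : ℝ → ℝ) : ∫ x in Ioi (0 : ℝ), F (x / θ) / x = ∫ x in Ioi (0 : ℝ), F x / x := by
  have h := integral_comp_mul_left_Ioi (fun x => F (x / θ) / x) 0 hθ
  rw [mul_zero] at h
  have e : ∀ x ∈ Ioi (0 : ℝ), F (θ * x / θ) / (θ * x) = θ⁻¹ * (F x / x) := by
    intro x hx
    have hx0 : (0 : ℝ) < x := hx
    rw [mul_div_cancel_left₀ _ hθ.ne']
    field_simp
  rw [setIntegral_congr_fun measurableSet_Ioi e, integral_const_mul, smul_eq_mul] at h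
  exact (mul_left_cancel₀ (inv_ne_zero hθ.ne') h).symm

lemma int_sq (hG : Cell0 M G) (hθ : 0 < θ) {j : ℕ} (h1 : 1 ≤ j) (h2 : j < M) :
    ∫ x in Ioi (0 : ℝ), cG θ G j x ^ 2 / x = 1 / (j : ℝ) := by
  have := dil_int hθ (fun x => G j x ^ 2)
  rw [hG.norm j h1 h2] at this
  exact this

lemma int_mean (hG : Cell0 M G) (hθ : 0 < θ) {j : ℕ} (h1 : 1 ≤ j) (h2 : j < M) :
    |(∫ x in Ioi (0 : ℝ), cG θ G j x / x) - 1 / (j : ℝ)| ≤ 4 / (j : ℝ) ^ 2 := by
  have := dil_int hθ (fun x => G j x)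
  unfold cG
  rw [this]
  exact hG.mean j h1 h2

/-- continuous integrand with the weight `1/x`, supported away from `0` -/
lemma integrable_cG (hG : Cell0 M G) (hθ : 0 < θ) (hθ1 : θ < 1) (j : ℕ) {φ : ℝ → ℂ} (hφ : Continuous φ) :
    IntegrableOn (fun x => φ x * (cG θ G j x : ℂ) / (x : ℂ)) (Ioi 0) := by
  have hc : ContinuousOn (fun x : ℝ => φ x * (cG θ G j x : ℂ) / (x : ℂ)) (Icc (θ / (20 * M)) 1) := by
    have hM : (0 : ℝ) < M := by
      have := hG.M_pos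
      exact_mod_cast (by omega : 0 < M)
    refine ContinuousOn.div ?_ Complex.continuous_ofReal.continuousOn fun x hx => ?_
    · exact (hφ.mul (Complex.continuous_ofReal.comp (Pool.Agent.H92.RG.cG_cont hG j))).continuousOn
    · have : 0 < x := lt_of_lt_of_le (by positivity) hx.1
      exact_mod_cast this.ne'
  refine (hc.integrableOn_Icc.of_forall_diff_eq_zero measurableSet_Ioi fun x hx => ?_)
  have h1 : cG θ G j x = 0 := by
    by_cases h : x ≤ θ / (20 * M)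
    · exact Pool.Agent.H92.RG.cG_low hG hθ j x h
    · apply Pool.Agent.H92.RG.cG_one hG hθ hθ1 j x
      by_contra h2
      exact hx.2 ⟨(not_le.1 h).le, (not_le.1 h2).le⟩
  rw [h1]
  simp

/-- comparison of a weighted integral of `cG` -/
lemma cG_bound (hG : Cell0 M G) (hθ : 0 < θ) (hθ1 : θ < 1) (j : ℕ) {φ : ℝ → ℂ} (hφ : Continuous φ) {c : ℂ} {B : ℝ}
    (hB : ∀ x, cG θ G j x ≠ 0 → ‖φ x - c‖ ≤ B) (n : ℕ) (hn : n = 1 ∨ n = 2) :
    ‖(∫ x in Ioi (0 : ℝ), φ x * ((cG θ G j x : ℂ) ^ n) / (x : ℂ)) - c * ((∫ x in Ioi (0 : ℝ), cG θ G j x ^ n / x : ℝ) : ℂ)‖ ≤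
      B * ∫ x in Ioi (0 : ℝ), cG θ G j x ^ n / x := by
  have hnn : ∀ x, 0 ≤ cG θ G j x := fun x => hG.nonneg j _
  have hn0 : n ≠ 0 := by rcases hn with h | h <;> omega
  have hi : ∀ ψ : ℝ → ℂ, Continuous ψ → IntegrableOn (fun x => ψ x * ((cG θ G j x : ℂ) ^ n) / (x : ℂ)) (Ioi 0) := by
    intro ψ hψ
    rcases hn with h | h
    · subst h
      simp only [pow_one]
      exact integrable_cG hG hθ hθ1 j hψ
    · subst h
      have h2 := integrable_cG hG hθ hθ1 j (φ := fun x => ψ x * (cG θ G j x : ℂ))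
        (hψ.mul (Complex.continuous_ofReal.comp (Pool.Agent.H92.RG.cG_cont hG j)))
      refine h2.congr_fun (fun x _ => ?_) measurableSet_Ioi
      show ψ x * (cG θ G j x : ℂ) * (cG θ G j x : ℂ) / (x : ℂ) = _
      ring
  have e1 : c * ((∫ x in Ioi (0 : ℝ), cG θ G j x ^ n / x : ℝ) : ℂ) = ∫ x in Ioi (0 : ℝ), c * ((cG θ G j x : ℂ) ^ n) / (x : ℂ) := by
    rw [← integral_complex_ofReal, ← integral_const_mul]
    refine integral_congr_ae (ae_of_all _ fun x => ?_)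
    show c * (((cG θ G j x ^ n / x : ℝ)) : ℂ) = _
    push_cast
    ring
  rw [e1, ← integral_sub (hi φ hφ) (hi (fun _ => c) continuous_const), ← integral_const_mul]
  have hir : IntegrableOn (fun x => B * (cG θ G j x ^ n / x)) (Ioi 0) := by
    refine Integrable.const_mul ?_ _
    have h3 := (hi (fun _ => 1) continuous_const).re
    refine h3.congr (ae_of_all _ fun x => ?_)
    show (((1 : ℂ) * ((cG θ G j x : ℂ) ^ n) / (x : ℂ))).re = _
    rw [one_mul, ← Complex.ofReal_pow, ← Complex.ofReal_div, Complex.ofReal_re]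
  refine norm_integral_le_of_norm_le hir ?_
  rw [ae_restrict_iff' measurableSet_Ioi]
  refine ae_of_all _ fun x hx => ?_
  have hx0 : (0 : ℝ) < x := hx
  rw [← sub_div, ← sub_mul, norm_div, norm_mul, norm_pow, Complex.norm_real, Complex.norm_real, Real.norm_eq_abs,
    Real.norm_eq_abs, abs_of_pos hx0, abs_of_nonneg (hnn x), mul_div_assoc]
  by_cases h : cG θ G j x = 0
  · rw [h, zero_pow hn0, zero_div, mul_zero, mul_zero]
  · exact mul_le_mul_of_nonneg_right (hB x h) (by have := hnn x; positivity)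

/-- `|e^{-2πiδx} - ρ^j| ≤ 7/M` on the cell `j` -/
lemma phase_cell (hG : Cell0 M G) (hθ : 1 - 1 / (2 * (M : ℝ)) ≤ θ) (hθ0 : 0 < θ) (hθ1 : θ < 1) {δ : ℝ}
    (hδ : 1 / 2 - 1 / (4 * (M : ℝ)) ≤ δ) (hδ1 : δ < 1 / 2) {j : ℕ} (h1 : 1 ≤ j) (h2 : j < M) {x : ℝ} (hx : cG θ G j x ≠ 0) :
    ‖Complex.exp (-((2 * (π * δ) * x : ℝ) : ℂ) * Complex.I) - rhoM M ^ j‖ ≤ 7 / M := by
  have hMp := hG.M_pos
  have hMr : (2 : ℝ) ≤ M := by exact_mod_cast hMp
  have hjr : (1 : ℝ) ≤ j := by exact_mod_cast h1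
  have hjM : (j : ℝ) ≤ M := by exact_mod_cast h2.le
  obtain ⟨hx1, hx2⟩ := Pool.Agent.H92.RG.cG_cell hG hθ0 j x hx
  have hδ0 : 0 < δ := by
    have : 1 / (4 * (M : ℝ)) ≤ 1 / 8 := one_div_le_one_div_of_le (by norm_num) (by linarith)
    linarith
  have e : rhoM M ^ j = Complex.exp (-((π * j / M : ℝ) : ℂ) * Complex.I) := by
    unfold rhoM
    rw [← Complex.exp_nat_mul]
    congr 1
    push_cast
    ring
  have e2 : Complex.exp (-((2 * (π * δ) * x : ℝ) : ℂ) * Complex.I) - Complex.exp (-((π * j / M : ℝ) : ℂ) * Complex.I) =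
      Complex.exp (-((π * j / M : ℝ) : ℂ) * Complex.I) * (Complex.exp (Complex.I * ((π * j / M - 2 * (π * δ) * x : ℝ) : ℂ)) - 1) := by
    rw [mul_sub, mul_one, ← Complex.exp_add]
    congr 2
    push_cast
    ring
  rw [e, e2, norm_mul]
  have h3 : ‖Complex.exp (-((π * j / M : ℝ) : ℂ) * Complex.I)‖ = 1 := by
    rw [← Complex.ofReal_neg, Complex.norm_exp_ofReal_mul_I]
  rw [h3, one_mul]
  refine (Real.norm_exp_I_mul_ofReal_sub_one_le (x := π * j / M - 2 * (π * δ) * x)).trans ?_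
  rw [Real.norm_eq_abs]
  have hpi := Real.pi_pos
  have hpi4 : π ≤ 3.15 := Real.pi_lt_d2.le
  -- bounds for `2 δ x M`
  have hx0 : 0 < x := lt_of_le_of_lt (by
    have : (0 : ℝ) ≤ (j : ℝ) - 1 := by linarith
    positivity) hx1
  have hup : 2 * δ * x ≤ j / M := by
    have h4 : 2 * δ * x ≤ 1 * x := mul_le_mul_of_nonneg_right (by linarith) hx0.le
    have h5 : x ≤ 1 * j / M := hx2.le.trans (by gcongr)
    rw [one_mul] at h4 h5
    linarith
  have hlo : (j : ℝ) / M - 2 / M ≤ 2 * δ * x := by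
    have h6 : 1 - 1 / (M : ℝ) ≤ 2 * δ * θ := by
      have h7 : 0 < 1 / (2 * (M : ℝ)) := by positivity
      have h8 : 1 - 1 / (2 * (M : ℝ)) ≤ 2 * δ := by
        have : 1 / (2 * (M : ℝ)) = 2 * (1 / (4 * M)) := by field_simp; ring
        linarith
      have h9 : 0 ≤ 1 - 1 / (2 * (M : ℝ)) := by
        have : 1 / (2 * (M : ℝ)) ≤ 1 / 4 := one_div_le_one_div_of_le (by norm_num) (by linarith)
        linarith
      have h10 : (1 - 1 / (2 * (M : ℝ))) * (1 - 1 / (2 * (M : ℝ))) ≤ 2 * δ * θ := mul_le_mul h8 hθ h9 (by linarith)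
      have h11 : 1 / (M : ℝ) = 2 * (1 / (2 * M)) := by field_simp
      nlinarith [mul_pos h7 h7]
    have h12 : (2 * δ * θ) * (((j : ℝ) - 1) / M) ≤ 2 * δ * x := by
      have : θ * ((j : ℝ) - 1) / M ≤ x := hx1.le
      calc (2 * δ * θ) * (((j : ℝ) - 1) / M) = 2 * δ * (θ * ((j : ℝ) - 1) / M) := by ring
        _ ≤ 2 * δ * x := mul_le_mul_of_nonneg_left this (by positivity)
    have h13 : (1 - 1 / (M : ℝ)) * (((j : ℝ) - 1) / M) ≤ (2 * δ * θ) * (((j : ℝ) - 1) / M) := by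
      have : (0 : ℝ) ≤ (j : ℝ) - 1 := by linarith
      exact mul_le_mul_of_nonneg_right h6 (by positivity)
    have h14 : (j : ℝ) / M - 2 / M ≤ (1 - 1 / (M : ℝ)) * (((j : ℝ) - 1) / M) := by
      have h15 : (1 - 1 / (M : ℝ)) * (((j : ℝ) - 1) / M) = (j - 1) / M - (j - 1) / M / M := by field_simp
      have h16 : ((j : ℝ) - 1) / M / M ≤ 1 / M := by
        gcongr
        rw [div_le_one (by linarith)]
        linarith
      rw [h15]
      have h17 : ((j : ℝ) - 1) / M = j / M - 1 / M := by ring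
      have h18 : (2 : ℝ) / M = 1 / M + 1 / M := by ring
      linarith
    linarith
  have h19 : π * j / M - 2 * (π * δ) * x = π * (j / M - 2 * δ * x) := by ring
  rw [h19, abs_mul, abs_of_pos hpi, abs_of_nonneg (by linarith)]
  calc π * ((j : ℝ) / M - 2 * δ * x) ≤ 3.15 * (2 / M) := mul_le_mul hpi4 (by linarith) (by linarith) (by norm_num)
    _ ≤ 7 / M := by
        rw [← mul_div_assoc]
        gcongr
        norm_num

/-- the sequence `a_j` -/
noncomputable def aJ (θ : ℝ) (G : ℕ → ℝ → ℝ) (δ : ℝ) (j : ℕ) : ℂ := ipc (tau θ G (π * δ) j) (tau θ G (-(π * δ)) j)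

/-- the sequence `d_j` -/
noncomputable def dJ (θ : ℝ) (G : ℕ → ℝ → ℝ) (χ : ℝ → ℝ) (δ : ℝ) (j : ℕ) : ℂ :=
  Complex.I * π * (2 * ipc (fun x => (Gd χ δ x : ℂ)) (tau θ G (-(π * δ)) j))

lemma ipc_swap (A B : ℝ → ℂ) : ipc A B = conj (ipc B A) := by
  unfold ipc
  rw [← integral_conj]
  refine integral_congr_ae (ae_of_all _ fun x => ?_)
  show A x * conj (B x) / (x : ℂ) = conj (B x * conj (A x) / (x : ℂ))
  rw [map_div₀, map_mul, Complex.conj_conj, Complex.conj_ofReal]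
  ring

lemma tau_conj (θ : ℝ) (G : ℕ → ℝ → ℝ) (a : ℝ) (j : ℕ) (x : ℝ) : conj (tau θ G a j x) = tau θ G (-a) j x := by
  unfold tau
  rw [map_mul, Complex.conj_ofReal, ← Complex.exp_conj, map_mul, map_neg, Complex.conj_ofReal, Complex.conj_I]
  congr 2
  push_cast
  ring

lemma aJ_eq (θ : ℝ) (G : ℕ → ℝ → ℝ) (δ : ℝ) (j : ℕ) : aJ θ G δ j =
    ∫ x in Ioi (0 : ℝ), Complex.exp (-((2 * (π * δ) * x : ℝ) : ℂ) * Complex.I) * ((cG θ G j x : ℂ) ^ 2) / (x : ℂ) := by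
  unfold aJ ipc
  refine integral_congr_ae (ae_of_all _ fun x => ?_)
  show tau θ G (π * δ) j x * conj (tau θ G (-(π * δ)) j x) / (x : ℂ) = _
  rw [tau_conj, neg_neg]
  unfold tau
  have : Complex.exp (-((2 * (π * δ) * x : ℝ) : ℂ) * Complex.I) =
      Complex.exp (-((π * δ * x : ℝ) : ℂ) * Complex.I) * Complex.exp (-((π * δ * x : ℝ) : ℂ) * Complex.I) := by
    rw [← Complex.exp_add]
    congr 1
    push_cast
    ring
  beta_reduce
  rw [this]
  ring

lemma dJ_eq (θ : ℝ) (G : ℕ → ℝ → ℝ) (χ : ℝ → ℝ) {δ : ℝ} (hδ : 0 < δ) (j : ℕ) : dJ θ G χ δ j =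
    ∫ x in Ioi (0 : ℝ), ((χ x : ℂ) * (1 - Complex.exp (-((2 * (π * δ) * x : ℝ) : ℂ) * Complex.I))) *
      ((cG θ G j x : ℂ) ^ 1) / (x : ℂ) := by
  unfold dJ ipc
  rw [← mul_assoc, ← integral_const_mul]
  refine integral_congr_ae (ae_of_all _ fun x => ?_)
  show Complex.I * π * 2 * ((Gd χ δ x : ℂ) * conj (tau θ G (-(π * δ)) j x) / (x : ℂ)) = _
  rw [tau_conj, neg_neg, Pool.Agent.H98.HF.Gd_eq χ hδ]
  unfold tau
  have h1 : Complex.exp (-((2 * (π * δ) * x : ℝ) : ℂ) * Complex.I) =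
      Complex.exp (-((π * δ * x : ℝ) : ℂ) * Complex.I) * Complex.exp (-((π * δ * x : ℝ) : ℂ) * Complex.I) := by
    rw [← Complex.exp_add]
    congr 1
    push_cast
    ring
  have h2 : Complex.exp ((π * δ * x : ℝ) * Complex.I) * Complex.exp (-((π * δ * x : ℝ) : ℂ) * Complex.I) = 1 := by
    rw [← Complex.exp_add]
    have : ((π * δ * x : ℝ) : ℂ) * Complex.I + -((π * δ * x : ℝ) : ℂ) * Complex.I = 0 := by ring
    rw [this, Complex.exp_zero]
  have h3 : (2 : ℂ) * Complex.I * Complex.sin ((π * δ * x : ℝ) : ℂ) =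
      Complex.exp ((π * δ * x : ℝ) * Complex.I) - Complex.exp (-((π * δ * x : ℝ) : ℂ) * Complex.I) := by
    rw [Complex.sin]
    have hI : Complex.I * Complex.I = -1 := Complex.I_mul_I
    linear_combination (Complex.exp (-((π * δ * x : ℝ) : ℂ) * Complex.I) - Complex.exp (((π * δ * x : ℝ) : ℂ) * Complex.I)) * hI
  have hpi : (π : ℂ) ≠ 0 := by exact_mod_cast Real.pi_ne_zero
  have h4 : Complex.I * (π : ℂ) * 2 * ((χ x * (Real.sin (π * δ * x) / π) : ℝ) : ℂ) =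
      (χ x : ℂ) * ((2 : ℂ) * Complex.I * Complex.sin ((π * δ * x : ℝ) : ℂ)) := by
    push_cast
    field_simp
  calc Complex.I * (π : ℂ) * 2 * (((χ x * (Real.sin (π * δ * x) / π) : ℝ) : ℂ) *
        ((cG θ G j x : ℂ) * Complex.exp (-((π * δ * x : ℝ) : ℂ) * Complex.I)) / (x : ℂ))
      = (Complex.I * (π : ℂ) * 2 * ((χ x * (Real.sin (π * δ * x) / π) : ℝ) : ℂ)) *
        Complex.exp (-((π * δ * x : ℝ) : ℂ) * Complex.I) * (cG θ G j x : ℂ) / (x : ℂ) := by ring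
    _ = (χ x : ℂ) * (Complex.exp ((π * δ * x : ℝ) * Complex.I) * Complex.exp (-((π * δ * x : ℝ) : ℂ) * Complex.I) -
        Complex.exp (-((π * δ * x : ℝ) : ℂ) * Complex.I) * Complex.exp (-((π * δ * x : ℝ) : ℂ) * Complex.I)) *
        (cG θ G j x : ℂ) / (x : ℂ) := by rw [h4, h3]; ring
    _ = _ := by
        rw [h2]
        beta_reduce
        rw [h1, pow_one]

theorem aJ_est (hG : Cell0 M G) (hθ : 1 - 1 / (2 * (M : ℝ)) ≤ θ) (hθ0 : 0 < θ) (hθ1 : θ < 1) {δ : ℝ}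
    (hδ : 1 / 2 - 1 / (4 * (M : ℝ)) ≤ δ) (hδ1 : δ < 1 / 2) {j : ℕ} (h1 : 1 ≤ j) (h2 : j < M) :
    ‖aJ θ G δ j - rhoM M ^ j / j‖ ≤ 7 / (j * M) ∧ ‖aJ θ G δ j‖ ≤ 1 / (j : ℝ) := by
  have hc : Continuous (fun x : ℝ => Complex.exp (-((2 * (π * δ) * x : ℝ) : ℂ) * Complex.I)) := by
    fun_prop
  have h3 := cG_bound hG hθ0 hθ1 j hc (c := rhoM M ^ j) (B := 7 / M)
    (fun x hx => phase_cell hG hθ hθ0 hθ1 hδ hδ1 h1 h2 hx) 2 (Or.inr rfl)
  have h4 := cG_bound hG hθ0 hθ1 j hc (c := 0) (B := 1) (fun x _ => by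
    rw [sub_zero, ← Complex.ofReal_neg, Complex.norm_exp_ofReal_mul_I]) 2 (Or.inr rfl)
  rw [int_sq hG hθ0 h1 h2, ← aJ_eq] at h3 h4
  constructor
  · have e1 : rhoM M ^ j * (((1 / (j : ℝ) : ℝ)) : ℂ) = rhoM M ^ j / j := by
      push_cast
      ring
    rw [e1] at h3
    refine h3.trans (le_of_eq ?_)
    rw [div_mul_div_comm, mul_one, mul_comm (M : ℝ)]
  · rw [zero_mul, sub_zero, one_mul] at h4
    exact h4

theorem dJ_est (hG : Cell0 M G) (hθ : 1 - 1 / (2 * (M : ℝ)) ≤ θ) (hθ0 : 0 < θ) (hθ1 : θ < 1) {δ : ℝ}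
    (hδ : 1 / 2 - 1 / (4 * (M : ℝ)) ≤ δ) (hδ1 : δ < 1 / 2) {χ : ℝ → ℝ} (hχ : Continuous χ)
    (hχ1 : ∀ x, 0 < x → x < 1 → |χ x - 1| ≤ 1 / M) {j : ℕ} (h1 : 1 ≤ j) (h2 : j < M) :
    ‖dJ θ G χ δ j - (1 - rhoM M ^ j) / j‖ ≤ 70 / (j * M) := by
  have hMp := hG.M_pos
  have hMr : (2 : ℝ) ≤ M := by exact_mod_cast hMp
  have hjr : (1 : ℝ) ≤ j := by exact_mod_cast h1
  have hjM : (j : ℝ) ≤ M := by exact_mod_cast h2.le
  have hδ0 : 0 < δ := by
    have : 1 / (4 * (M : ℝ)) ≤ 1 / 8 := one_div_le_one_div_of_le (by norm_num) (by linarith)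
    linarith
  have hc : Continuous (fun x : ℝ => (χ x : ℂ) * (1 - Complex.exp (-((2 * (π * δ) * x : ℝ) : ℂ) * Complex.I))) := by
    fun_prop
  have h3 := cG_bound hG hθ0 hθ1 j hc (c := 1 - rhoM M ^ j) (B := 9 / M) (fun x hx => by
    have h5 := phase_cell hG hθ hθ0 hθ1 hδ hδ1 h1 h2 hx
    obtain ⟨hx1, hx2⟩ := Pool.Agent.H92.RG.cG_cell hG hθ0 j x hx
    have hx0 : 0 < x := lt_of_le_of_lt (by
      have : (0 : ℝ) ≤ (j : ℝ) - 1 := by linarith
      positivity) hx1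
    have hx1' : x < 1 := by
      by_contra h
      exact hx (Pool.Agent.H92.RG.cG_one hG hθ0 hθ1 j x (not_lt.1 h))
    have h6 := hχ1 x hx0 hx1'
    set E := Complex.exp (-((2 * (π * δ) * x : ℝ) : ℂ) * Complex.I) with hE
    have hEn : ‖E‖ = 1 := by rw [hE, ← Complex.ofReal_neg, Complex.norm_exp_ofReal_mul_I]
    have e1 : (χ x : ℂ) * (1 - E) - (1 - rhoM M ^ j) = ((χ x : ℂ) - 1) * (1 - E) - (E - rhoM M ^ j) := by ring
    rw [e1]
    refine (norm_sub_le _ _).trans ?_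
    have h7 : ‖((χ x : ℂ) - 1) * (1 - E)‖ ≤ 1 / M * 2 := by
      rw [norm_mul]
      refine mul_le_mul ?_ ?_ (norm_nonneg _) (by positivity)
      · have : (χ x : ℂ) - 1 = ((χ x - 1 : ℝ) : ℂ) := by push_cast; ring
        rw [this, Complex.norm_real]
        exact h6
      · refine (norm_sub_le _ _).trans ?_
        rw [norm_one, hEn]
        norm_num
    calc _ ≤ 1 / (M : ℝ) * 2 + 7 / M := add_le_add h7 h5
      _ = 9 / M := by ring) 1 (Or.inl rfl)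
  rw [← dJ_eq θ G χ hδ0] at h3
  simp only [pow_one] at h3
  have h8 := int_mean hG hθ0 h1 h2
  set I := ∫ x in Ioi (0 : ℝ), cG θ G j x / x with hI
  have hIle : I ≤ 5 / j := by
    have h9 := (abs_le.1 h8).2
    have h10 : 4 / (j : ℝ) ^ 2 ≤ 4 / j := by
      rw [pow_two, ← div_div]
      exact div_le_self (by positivity) hjr
    have h11 : (5 : ℝ) / j = 1 / j + 4 / j := by ring
    linarith
  have hI0 : 0 ≤ I := by
    rw [hI]
    refine setIntegral_nonneg measurableSet_Ioi fun x hx => ?_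
    have hx0 : (0 : ℝ) < x := hx
    exact div_nonneg (hG.nonneg j _) hx0.le
  have hρ : ‖1 - rhoM M ^ j‖ ≤ 4 * j / M := by
    have h12 : ∀ n : ℕ, ‖1 - rhoM M ^ n‖ ≤ 4 * n / M := by
      intro n
      induction n with
      | zero => simp
      | succ n ih =>
        have e : 1 - rhoM M ^ (n + 1) = (1 - rhoM M ^ n) + rhoM M ^ n * (1 - rhoM M) := by ring
        rw [e]
        refine (norm_add_le _ _).trans ?_
        rw [norm_mul, norm_pow, norm_rhoM, one_pow, one_mul, norm_sub_rev 1 (rhoM M)]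
        have := rhoM_sub_one (M := M) (by omega)
        push_cast
        calc _ ≤ 4 * (n : ℝ) / M + 4 / M := add_le_add ih this
          _ = 4 * ((n : ℝ) + 1) / M := by ring
    exact h12 j
  have e2 : dJ θ G χ δ j - (1 - rhoM M ^ j) / j =
      (dJ θ G χ δ j - (1 - rhoM M ^ j) * (I : ℂ)) + (1 - rhoM M ^ j) * ((I - 1 / j : ℝ) : ℂ) := by
    push_cast
    ring
  rw [e2]
  refine (norm_add_le _ _).trans ?_
  have h13 : ‖(1 - rhoM M ^ j) * ((I - 1 / j : ℝ) : ℂ)‖ ≤ 16 / (j * M) := by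
    rw [norm_mul, Complex.norm_real, Real.norm_eq_abs]
    calc ‖1 - rhoM M ^ j‖ * |I - 1 / (j : ℝ)| ≤ 4 * j / M * (4 / (j : ℝ) ^ 2) :=
          mul_le_mul hρ h8 (abs_nonneg _) (by positivity)
      _ = 16 / (j * M) := by
          have hj0 : (j : ℝ) ≠ 0 := by positivity
          have hM0 : (M : ℝ) ≠ 0 := by positivity
          field_simp
          norm_num
  have h14 : 9 / (M : ℝ) * I ≤ 45 / (j * M) := by
    calc 9 / (M : ℝ) * I ≤ 9 / M * (5 / j) := mul_le_mul_of_nonneg_left hIle (by positivity)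
      _ = 45 / (j * M) := by
          have hj0 : (j : ℝ) ≠ 0 := by positivity
          have hM0 : (M : ℝ) ≠ 0 := by positivity
          field_simp
          norm_num
  calc _ ≤ 45 / ((j : ℝ) * M) + 16 / (j * M) := add_le_add (h3.trans h14) h13
    _ ≤ 70 / (j * M) := by
        rw [← add_div]
        gcongr
        norm_num

end

end Pool.Agent.H29.AH
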