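import Mathlib
import Pool.Agent.H29.AH.Ff

/-!
# MP_103a5c_AH, block FIN: the conclusion
-/

open MeasureTheory Set Filter Topology
open scoped Real ContDiff ComplexConjugate

namespace Pool.Agent.H29.AH

open Pool.Agent.H14.GP Pool.Agent.H24.AH Pool.Agent.H67.HF Pool.Agent.H68.AH
open Pool.Agent.H92.RG (tau LM kapS EXS)

/-- `exp (iπ(δ - 1/2))` -/
noncomputable def omD (δ : ℝ) : ℂ := Complex.exp (Complex.I * π * ((δ : ℂ) - 1 / 2))

lemma norm_omD (δ : ℝ) : ‖omD δ‖ = 1 := by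
  unfold omD
  have : Complex.I * π * ((δ : ℂ) - 1 / 2) = ((π * (δ - 1 / 2) : ℝ) : ℂ) * Complex.I := by push_cast; ring
  rw [this, Complex.norm_exp_ofReal_mul_I]

lemma omD_sub_one (δ : ℝ) : ‖omD δ - 1‖ ≤ π * |δ - 1 / 2| := by
  unfold omD
  have : Complex.I * π * ((δ : ℂ) - 1 / 2) = Complex.I * ((π * (δ - 1 / 2) : ℝ) : ℂ) := by push_cast; ring
  rw [this]
  refine (Real.norm_exp_I_mul_ofReal_sub_one_le).trans (le_of_eq ?_)
  rw [Real.norm_eq_abs, abs_mul, abs_of_pos Real.pi_pos]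

lemma omD_eq (δ : ℝ) : omD δ = Vf (((δ - 1 / 2 : ℝ)) : ℂ) := by
  unfold omD Vf
  push_cast
  rfl

/-- the constant `c⁺⁺ = c⁻⁻` -/
noncomputable def cJ (θ : ℝ) (G : ℕ → ℝ → ℝ) (j : ℕ) : ℂ := ((∫ x in Ioi (0 : ℝ), cG θ G j x ^ 2 / x : ℝ) : ℂ)

lemma ipc_self (θ : ℝ) (G : ℕ → ℝ → ℝ) (a : ℝ) (j : ℕ) : ipc (tau θ G a j) (tau θ G a j) = cJ θ G j := by
  unfold ipc cJ
  rw [← integral_complex_ofReal]
  refine integral_congr_ae (ae_of_all _ fun x => ?_)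
  show tau θ G a j x * conj (tau θ G a j x) / (x : ℂ) = _
  rw [Complex.mul_conj, Complex.normSq_eq_norm_sq]
  unfold tau
  rw [norm_mul, ← Complex.ofReal_neg, Complex.norm_exp_ofReal_mul_I, mul_one, Complex.norm_real, Real.norm_eq_abs, sq_abs]
  push_cast
  rfl

lemma EXS_self (θ : ℝ) (G : ℕ → ℝ → ℝ) (a : ℝ) : EXS θ G a a = EX (cJ θ G) := by
  unfold EXS Pool.Agent.H92.RG.EX EX
  congr 2
  funext j
  exact ipc_self θ G a j

lemma EXS_pm (θ : ℝ) (G : ℕ → ℝ → ℝ) (δ : ℝ) : EXS θ G (π * δ) (-(π * δ)) = EX (aJ θ G δ) := rfl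

lemma EXS_mp (θ : ℝ) (G : ℕ → ℝ → ℝ) (δ : ℝ) : EXS θ G (-(π * δ)) (π * δ) = EX fun j => conj (aJ θ G δ j) := by
  unfold EXS Pool.Agent.H92.RG.EX EX
  congr 2
  funext j
  rw [ipc_swap]
  rfl

/-- the series `κ` for the two signs -/
noncomputable def kS (θ : ℝ) (G : ℕ → ℝ → ℝ) (χ : ℝ → ℝ) (δ a : ℝ) : PowerSeries ℂ :=
  2 * kap (tau θ G a) (fun x => (Gd χ δ x : ℂ))

lemma coeff_kS (θ : ℝ) (G : ℕ → ℝ → ℝ) (χ : ℝ → ℝ) (δ a : ℝ) (j : ℕ) :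
    PowerSeries.coeff j (kS θ G χ δ a) = 2 * ipc (fun x => (Gd χ δ x : ℂ)) (tau θ G a j) := by
  unfold kS kap
  rw [two_eq, PowerSeries.coeff_C_mul, PowerSeries.coeff_mk]

lemma kS_zero {M : ℕ} {θ : ℝ} {G : ℕ → ℝ → ℝ} (hG : Cell0 M G) (χ : ℝ → ℝ) (δ a : ℝ) :
    PowerSeries.constantCoeff (kS θ G χ δ a) = 0 := by
  rw [← PowerSeries.coeff_zero_eq_constantCoeff_apply, coeff_kS]
  unfold ipc
  have : ∀ x, tau θ G a 0 x = 0 := by
    intro x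
    unfold tau cG
    rw [hG.out 0 (Or.inl (by norm_num))]
    simp
  simp [this]

lemma dJ_m (θ : ℝ) (G : ℕ → ℝ → ℝ) (χ : ℝ → ℝ) (δ : ℝ) :
    (fun j => Complex.I * π * PowerSeries.coeff j (kS θ G χ δ (-(π * δ)))) = dJ θ G χ δ := by
  funext j
  rw [coeff_kS]
  rfl

lemma dJ_p (θ : ℝ) (G : ℕ → ℝ → ℝ) (χ : ℝ → ℝ) (δ : ℝ) :
    (fun j => Complex.I * π * PowerSeries.coeff j (kS θ G χ δ (π * δ))) = fun j => -conj (dJ θ G χ δ j) := by
  funext j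
  rw [coeff_kS]
  unfold dJ
  have h1 : conj (ipc (fun x => (Gd χ δ x : ℂ)) (tau θ G (-(π * δ)) j)) = ipc (fun x => (Gd χ δ x : ℂ)) (tau θ G (π * δ) j) := by
    unfold ipc
    rw [← integral_conj]
    refine integral_congr_ae (ae_of_all _ fun x => ?_)
    show conj ((Gd χ δ x : ℂ) * conj (tau θ G (-(π * δ)) j x) / (x : ℂ)) = (Gd χ δ x : ℂ) * conj (tau θ G (π * δ) j x) / (x : ℂ)
    rw [map_div₀, map_mul, Complex.conj_conj, Complex.conj_ofReal, Complex.conj_ofReal, tau_conj]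
  rw [map_mul, map_mul, map_mul, h1, Complex.conj_I, Complex.conj_ofReal, map_ofNat]
  ring

lemma exists_M₀ : ∃ M₀ : ℕ, 20 ≤ M₀ ∧ ∀ M : ℕ, M₀ ≤ M → 2 * 70 * (1 + Real.log M) / M ≤ (1 : ℝ) / 40 := by
  have h1 : Tendsto (fun x : ℝ => (1 + Real.log x) / x) atTop (𝓝 0) := by
    have h2 : Tendsto (fun x : ℝ => 1 / x + Real.log x / x) atTop (𝓝 (0 + 0)) :=
      (by simpa using tendsto_inv_atTop_zero (𝕜 := ℝ) : Tendsto (fun x : ℝ => 1 / x) atTop (𝓝 0)).add Real.isLittleO_log_id_atTop.tendsto_div_nhds_zero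
    rw [add_zero] at h2
    refine h2.congr fun x => ?_
    rw [add_div]
  have h3 := (h1.comp tendsto_natCast_atTop_atTop).eventually_lt_const (by norm_num : (0 : ℝ) < 1 / 5600)
  obtain ⟨N, hN⟩ := eventually_atTop.1 h3
  refine ⟨max N 20, le_max_right _ _, fun M hM => ?_⟩
  have h4 := hN M ((le_max_left _ _).trans hM)
  simp only [Function.comp] at h4
  calc 2 * 70 * (1 + Real.log M) / M = 140 * ((1 + Real.log M) / M) := by ring
    _ ≤ 1 / 40 := by linarith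

/-- **FIN**: the limit of `E|X|² + E|Y|² - 2 Re E (Φ_p X conj Y)` is `O(log M)`. -/
theorem FIN : ∃ (C₁ : ℝ) (M₀ : ℕ), 0 < C₁ ∧ ∀ (M : ℕ) (G : ℕ → ℝ → ℝ), M₀ ≤ M → Cell0 M G → ∀ (θ δ : ℝ) (χ : ℝ → ℝ),
    1 - 1 / (2 * (M : ℝ)) ≤ θ → θ < 1 → 1 / 2 - 1 / (4 * (M : ℝ)) ≤ δ → δ < 1 / 2 → Continuous χ →
    (∀ x, 0 < x → x < 1 → |χ x - 1| ≤ 1 / M) → ∃ ε₀ : ℝ, 0 < ε₀ ∧ ∀ p : Polynomial ℂ,
      (∀ w : ℂ, |w.re| ≤ 3 / 4 → ‖p.eval w - Complex.tan (π * w / 2)‖ ≤ ε₀ * Real.exp (π / 2 * |w.im|)) →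
      4 * (M : ℝ) - 2 * (LM M (Polynomial.aeval (kapS θ G χ δ (π * δ)) (Polynomial.C (-Complex.I) * p) *
          (EXS θ G (π * δ) (π * δ) + PowerSeries.C (omD δ) * EXS θ G (-(π * δ)) (π * δ))) -
        conj (omD δ) * LM M (Polynomial.aeval (kapS θ G χ δ (-(π * δ))) (Polynomial.C (-Complex.I) * p) *
          (EXS θ G (π * δ) (-(π * δ)) + PowerSeries.C (omD δ) * EXS θ G (-(π * δ)) (-(π * δ))))).re ≤ C₁ * Real.log M := by
  obtain ⟨M₀, hM₀, hsm⟩ := exists_M₀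
  refine ⟨(8 + 104 * 70) * 2 + 2, M₀, by norm_num, fun M G hM hG θ δ χ hθ hθ1 hδ hδ1 hχ hχ1 => ?_⟩
  have hM20 : 20 ≤ M := hM₀.trans hM
  have hMr : (20 : ℝ) ≤ M := by exact_mod_cast hM20
  have hθ0 : 0 < θ := by
    have : 1 / (2 * (M : ℝ)) ≤ 1 / 40 := one_div_le_one_div_of_le (by norm_num) (by linarith)
    linarith
  have hδ0 : |δ - 1 / 2| ≤ 1 / (4 * M) := by
    rw [abs_le]
    have : 0 < 1 / (4 * (M : ℝ)) := by positivity
    constructor <;> linarith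
  have hδ4 : |δ - 1 / 2| ≤ 1 / 4 := hδ0.trans (one_div_le_one_div_of_le (by norm_num) (by linarith))
  have hlog : 1 ≤ Real.log M := by
    rw [Real.le_log_iff_exp_le (by linarith)]
    linarith [Real.exp_one_lt_d9]
  obtain ⟨Ψm, hm1, hm2⟩ := near_tan (δ - 1 / 2) hδ4 (kS θ G χ δ (-(π * δ))) (kS_zero hG χ δ _)
  obtain ⟨Ψp, hp1, hp2⟩ := near_tan (δ - 1 / 2) hδ4 (kS θ G χ δ (π * δ)) (kS_zero hG χ δ _)
  rw [dJ_m, ← omD_eq] at hm1
  rw [dJ_p, ← omD_eq] at hp1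
  have hη : (0 : ℝ) < 1 / (8 * M) := by positivity
  obtain ⟨e1, he1, hm3⟩ := hm2 M _ hη
  obtain ⟨e2, he2, hp3⟩ := hp2 M _ hη
  refine ⟨min e1 e2, lt_min he1 he2, fun p hp => ?_⟩
  have hω1 := norm_omD δ
  have hω : ‖omD δ - 1‖ ≤ 1 / M := by
    refine (omD_sub_one δ).trans ?_
    calc π * |δ - 1 / 2| ≤ 4 * (1 / (4 * M)) := mul_le_mul Real.pi_le_four hδ0 (abs_nonneg _) (by norm_num)
      _ = 1 / M := by field_simp
  have haK : ∀ j, 1 ≤ j → j < M → ‖aJ θ G δ j - rhoM M ^ j / j‖ ≤ 70 / (j * M) := by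
    intro j h1 h2
    refine (aJ_est hG hθ hθ0 hθ1 hδ hδ1 h1 h2).1.trans ?_
    have : (0 : ℝ) < j := by exact_mod_cast (by omega : 0 < j)
    gcongr
    norm_num
  have hcore := core_alg (K := 70) (by norm_num) hM20 (hsm M hM) (a := aJ θ G δ) (d := dJ θ G χ δ) (c0 := cJ θ G) hω1 hω
    (fun j h1 h2 => by
      unfold cJ
      rw [int_sq hG hθ0 h1 h2]
      push_cast
      rfl) haK (fun j h1 h2 => (aJ_est hG hθ hθ0 hθ1 hδ hδ1 h1 h2).2)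
    (fun j h1 h2 => dJ_est hG hθ hθ0 hθ1 hδ hδ1 hχ hχ1 h1 h2) hm1 hp1
  -- the difference
  set Pp := Polynomial.aeval (kapS θ G χ δ (π * δ)) (Polynomial.C (-Complex.I) * p) with hPp
  set Pm := Polynomial.aeval (kapS θ G χ δ (-(π * δ))) (Polynomial.C (-Complex.I) * p) with hPm
  have hkap : ∀ a, kapS θ G χ δ a = PowerSeries.C (((δ - 1 / 2 : ℝ)) : ℂ) + kS θ G χ δ a := by
    intro a
    unfold kapS kS
    push_cast
    rfl
  have hdp : nrm M (Pp - Ψp) ≤ 1 / (8 * M) := by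
    rw [hPp, hkap]
    exact hp3 p fun w hw => (hp w hw).trans (mul_le_mul_of_nonneg_right (min_le_right _ _) (Real.exp_pos _).le)
  have hdm : nrm M (Pm - Ψm) ≤ 1 / (8 * M) := by
    rw [hPm, hkap]
    exact hm3 p fun w hw => (hp w hw).trans (mul_le_mul_of_nonneg_right (min_le_left _ _) (Real.exp_pos _).le)
  have hLS : ∀ f : PowerSeries ℂ, LM M f = SMf M f := fun f => rfl
  rw [EXS_self, EXS_self, EXS_pm, EXS_mp, hLS, hLS]
  set A := EX (cJ θ G) + PowerSeries.C (omD δ) * EX (fun j => conj (aJ θ G δ j)) with hA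
  set B := EX (aJ θ G δ) + PowerSeries.C (omD δ) * EX (cJ θ G) with hB
  have hcc : ∀ m < M, ‖PowerSeries.coeff m (EX (cJ θ G))‖ ≤ 1 := fun m hm => coeff_EX_le_one (fun j h1 h2 => by
    unfold cJ
    rw [int_sq hG hθ0 h1 h2, Complex.norm_real, Real.norm_eq_abs, abs_of_nonneg (by positivity)]) m hm
  have hca : ∀ m < M, ‖PowerSeries.coeff m (EX (aJ θ G δ))‖ ≤ 1 := fun m hm =>
    coeff_EX_le_one (fun j h1 h2 => (aJ_est hG hθ hθ0 hθ1 hδ hδ1 h1 h2).2) m hm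
  have hcb : ∀ m < M, ‖PowerSeries.coeff m (EX (fun j => conj (aJ θ G δ j)))‖ ≤ 1 := fun m hm =>
    coeff_EX_le_one (fun j h1 h2 => by
      rw [RCLike.norm_conj]
      exact (aJ_est hG hθ hθ0 hθ1 hδ hδ1 h1 h2).2) m hm
  have hAc : ∀ m < M, ‖PowerSeries.coeff m A‖ ≤ 2 := by
    intro m hm
    rw [hA, map_add, PowerSeries.coeff_C_mul]
    refine (norm_add_le _ _).trans ?_
    rw [norm_mul, hω1, one_mul]
    linarith [hcc m hm, hcb m hm]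
  have hBc : ∀ m < M, ‖PowerSeries.coeff m B‖ ≤ 2 := by
    intro m hm
    rw [hB, map_add, PowerSeries.coeff_C_mul]
    refine (norm_add_le _ _).trans ?_
    rw [norm_mul, hω1, one_mul]
    linarith [hcc m hm, hca m hm]
  have e3 : SMf M (Pp * A) = SMf M (A * Ψp) + SMf M (A * (Pp - Ψp)) := by
    rw [← SMf_add]
    congr 1
    ring
  have e4 : SMf M (Pm * B) = SMf M (B * Ψm) + SMf M (B * (Pm - Ψm)) := by
    rw [← SMf_add]
    congr 1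
    ring
  have h5 : ‖SMf M (A * (Pp - Ψp))‖ ≤ 1 / 4 := by
    refine (SMf_mul_le hAc (by norm_num) _).trans ?_
    calc (M : ℝ) * 2 * nrm M (Pp - Ψp) ≤ M * 2 * (1 / (8 * M)) := mul_le_mul_of_nonneg_left hdp (by positivity)
      _ = 1 / 4 := by field_simp; norm_num
  have h6 : ‖SMf M (B * (Pm - Ψm))‖ ≤ 1 / 4 := by
    refine (SMf_mul_le hBc (by norm_num) _).trans ?_
    calc (M : ℝ) * 2 * nrm M (Pm - Ψm) ≤ M * 2 * (1 / (8 * M)) := mul_le_mul_of_nonneg_left hdm (by positivity)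
      _ = 1 / 4 := by field_simp; norm_num
  have e5 : SMf M (Pp * A) - conj (omD δ) * SMf M (Pm * B) =
      (SMf M (A * Ψp) - conj (omD δ) * SMf M (B * Ψm)) +
        (SMf M (A * (Pp - Ψp)) - conj (omD δ) * SMf M (B * (Pm - Ψm))) := by
    rw [e3, e4]
    ring
  rw [e5, Complex.add_re]
  have h7 : |(SMf M (A * (Pp - Ψp)) - conj (omD δ) * SMf M (B * (Pm - Ψm))).re| ≤ 1 / 2 := by
    refine (Complex.abs_re_le_norm _).trans ((norm_sub_le _ _).trans ?_)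
    rw [norm_mul, RCLike.norm_conj, hω1, one_mul]
    linarith
  have h8 := (abs_le.1 h7).1
  nlinarith [hcore, hlog]

end Pool.Agent.H29.AH
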