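/-
MP_103a5c_AH: block FIN in helper92's form.
-/
import Mathlib
import Pool.Agent.H29.AH.Fg
import Pool.Agent.H92.RG.S1c

set_option autoImplicit false

open MeasureTheory Set Filter Topology
open scoped Real ComplexConjugate

namespace Pool.Agent.H29.AH

open Pool.Agent.H92.RG Pool.Agent.H68.AH

theorem finAt_of : ∃ (C₀ : ℝ) (M₀ : ℕ), 0 < C₀ ∧ ∀ (M : ℕ) (G : ℕ → ℝ → ℝ), M₀ ≤ M → Cell0 M G → ∀ (θ δ : ℝ) (χ : ℝ → ℝ),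
    1 - 1 / (2 * (M : ℝ)) ≤ θ → θ < 1 → 1 / 2 - 1 / (4 * (M : ℝ)) ≤ δ → δ < 1 / 2 → Continuous χ →
    (∀ x, 0 < x → x < 1 → |χ x - 1| ≤ 1 / M) → ∃ ε₀ : ℝ, 0 < ε₀ ∧ FinAt χ M G θ δ ε₀ (C₀ * Real.log M) := FIN

/-- the same with the window `win χ₁ D` -/
theorem finAt_win : ∃ (C₀ : ℝ) (M₀ : ℕ), 0 < C₀ ∧ ∀ (M : ℕ) (G : ℕ → ℝ → ℝ), M₀ ≤ M → Cell0 M G → ∀ (θ δ D : ℝ) (χ₁ : ℝ → ℝ),
    1 - 1 / (2 * (M : ℝ)) ≤ θ → θ < 1 → 1 / 2 - 1 / (4 * (M : ℝ)) ≤ δ → δ < 1 / 2 → Continuous χ₁ →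
    (∀ x, 0 < x → x < 1 → |win χ₁ D x - 1| ≤ 1 / M) → ∃ ε₀ : ℝ, 0 < ε₀ ∧ FinAt (win χ₁ D) M G θ δ ε₀ (C₀ * Real.log M) := by
  obtain ⟨C₀, M₀, hC, h⟩ := finAt_of
  refine ⟨C₀, M₀, hC, fun M G hM hG θ δ D χ₁ h1 h2 h3 h4 h5 h6 => h M G hM hG θ δ (win χ₁ D) h1 h2 h3 h4 ?_ h6⟩
  unfold win
  exact h5.comp (continuous_id.div_const D)

end Pool.Agent.H29.AH
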