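/-
MP_103a5c_AH: the core for every filter, from the landed blocks (check file).
-/
import Mathlib
import Pool.Agent.H68.AH.Fin
import Pool.Agent.H92.RG.S1
import Pool.Agent.H26.AH.Fin

set_option autoImplicit false

open MeasureTheory Set Filter Topology

namespace Pool.Agent.H29.AH

/-- The core of the rigidity theorem: if the small-gap pair counts are asymptotically the value `norm T · 0` along `FF`,
the lattice-comb statement `CoreFF` holds along `FF`. -/
theorem core_all (RH : RiemannHypothesis) : ∀ FF : Filter ℝ, H68.AH.Hyp FF → H87.AH.CoreFF FF := by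
  obtain ⟨χ₁, h⟩ := H68.AH.exists_win1
  exact fun FF hF => H68.AH.coreFF_of_S1_P4 RH h (H92.RG.S1P_holds RH h) (H26.AH.P4P_holds RH h) hF

theorem mainP_holds (RH : RiemannHypothesis) : H84.AH.MainP := H84.AH.mainP_of_core RH (core_all RH)

end Pool.Agent.H29.AH
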