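import Mathlib
import Pool.Agent.H29.AH.Defs

/-!
# MP_103a5c_AH: the interface statements (as propositions)

Order of limits: `M` first, then `k → ∞` (`∀ᶠ k in atTop`), then `T → ∞` (`∀ᶠ T in atTop`, or along the given filter
`l ≤ atTop` where the hypothesis `HypAH l` is used).
-/

open MeasureTheory Set Filter Topology
open scoped Real ContDiff ComplexConjugate

namespace Pool.Agent.H29.AH

open Pool.Agent Pool.Agent.H6 Pool.Agent.H14.GP Pool.Agent.H24.HF Pool.Agent.H67.HF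

/-! ### [A] mean values -/

/-- complex prime sum `P_A(t) = ∑_{p ≤ T^W} A(log p / log T) p^(-1/2 - it)` -/
noncomputable def PCs (A : ℝ → ℂ) (W T t : ℝ) : ℂ :=
  ∑ p ∈ (Finset.range (⌊T ^ W⌋₊ + 1)).filter Nat.Prime,
    A (Real.log p / Real.log T) * (((p : ℝ) ^ (-(1 / 2) : ℝ) : ℝ) : ℂ) * Complex.exp (-((t * Real.log p : ℝ) : ℂ) * Complex.I)

/-- `⟨A, B⟩ = ∫_{x>0} A(x) conj B(x) dx/x` -/
noncomputable def ipc (A B : ℝ → ℂ) : ℂ := ∫ x in Ioi (0 : ℝ), A x * conj (B x) / (x : ℂ)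

/-- [WICK] mean values of products of prime sums, one side short: only the diagonal (Wick pairings) remains -/
def WICK : Prop := ∀ (v : ℝ → ℝ), Wgt v → ∀ W : ℝ, 1 ≤ W → ∀ (m n : ℕ) (A : Fin m → ℝ → ℂ) (B : Fin n → ℝ → ℂ),
  (∀ i, Continuous (A i)) → (∀ i, ∃ K : ℝ, ∀ x, ‖A i x‖ ≤ K) → (∀ j, Continuous (B j)) → (∀ j, ∃ K : ℝ, ∀ x, ‖B j x‖ ≤ K) →
  ∀ (a : ℝ), 0 < a → ∀ (b : Fin n → ℝ), (∀ j x, B j x ≠ 0 → a ≤ x ∧ x ≤ b j) → ∑ j, b j < 1 →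
    Tendsto (fun T => EC v T (fun t => (∏ i, PCs (A i) W T t) * conj (∏ j, PCs (B j) W T t))) atTop
      (𝓝 (((∫ x, v x : ℝ) : ℂ) * if h : m = n then ∑ σ : Equiv.Perm (Fin n), ∏ i, ipc (A (Fin.cast h.symm i)) (B (σ i)) else 0))

/-- coefficients of `exp (- ∑_j P_{A_j} y^j)` -/
noncomputable def hc (A : ℕ → ℝ → ℂ) (T t : ℝ) (k : ℕ) : ℂ := cf (-1) (fun j => PCs (A j) 1 T t) k

/-- complex cell functions: supported in the cells `(θ(j-1)/M, θj/M)`, `1 ≤ j < M`, away from `0` -/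
structure CellC (M : ℕ) (θ : ℝ) (A : ℕ → ℝ → ℂ) : Prop where
  cont : ∀ j, Continuous (A j)
  bdd : ∃ K : ℝ, ∀ j x, ‖A j x‖ ≤ K
  low : ∃ a, 0 < a ∧ ∀ j x, x ≤ a → A j x = 0
  cell : ∀ j x, A j x ≠ 0 → θ * ((j : ℝ) - 1) / M < x ∧ x < θ * j / M
  out : ∀ j, (j < 1 ∨ M ≤ j) → ∀ x, A j x = 0

/-- [WICKcf] mean values of `P_H^i h_k(A) conj h_m(B)` -/
def WICKcf : Prop := ∀ (v : ℝ → ℝ), Wgt v → ∀ W : ℝ, 1 ≤ W → ∀ (M : ℕ) (θ : ℝ), 1 ≤ M → 0 < θ → θ < 1 →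
  ∀ (A B : ℕ → ℝ → ℂ), CellC M θ A → CellC M θ B → ∀ H : ℝ → ℂ, Continuous H → (∃ K : ℝ, ∀ x, ‖H x‖ ≤ K) →
  ∀ i k m : ℕ, k < M → m < M →
    Tendsto (fun T => EC v T (fun t => PCs H W T t ^ i * (hc A T t k * conj (hc B T t m)))) atTop
      (𝓝 (((∫ x, v x : ℝ) : ℂ) * if k ≤ m then cf 1 (fun j => ipc (A j) (B j)) k *
        PowerSeries.coeff (m - k) ((-(PowerSeries.mk fun j => ipc H (B j))) ^ i) else 0))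

/-! ### the blocks -/

/-- [SEP] points near which the zeros are not separated are rare along `l` -/
def SEP : Prop := ∀ (l : Filter ℝ), l ≤ atTop → HypAH l → ∀ (v : ℝ → ℝ), WgtU v →
  ∀ b : ℝ, 0 < b → b < 1 / 2 → ∀ Q : ℝ, 0 < Q → ∃ Bd : ℝ → Set ℝ,
    (∀ᶠ T in l, MeasurableSet (Bd T) ∧ ∀ t, t ∉ Bd T → Sep gZ wZ b Q (Real.log T) t) ∧
    Tendsto (fun T => Pr v T (Bd T)) l (𝓝 0)

/-- [B] the functional equation `V C_+ = ω C_-` holds up to an error with second moment `O(log M)` -/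
def BMAIN (χ₀ : ℝ → ℝ) (D₀ : ℝ) : Prop := ∃ C₁ : ℝ, 0 < C₁ ∧ ∀ (l : Filter ℝ), l ≤ atTop → HypAH l →
  ∀ (v : ℝ → ℝ), WgtU v → 0 < ∫ x, v x → ∀ M : ℕ, 3 ≤ M → ∀ η : ℝ, 0 < η → ∀ᶠ k in atTop, ∀ᶠ T in l,
    ∃ Bad : Set ℝ, MeasurableSet Bad ∧ Pr v T Bad ≤ η ∧
      EE v T (Badᶜ.indicator fun t => Err χ₀ D₀ k M T t ^ 2) ≤ C₁ * (1 + Real.log M) * ∫ x, v x

/-- [P1] `C_M(t - iy)` is the Taylor polynomial of `exp(-S_M(t))`, up to `1/M` in mean square -/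
def P1APX : Prop := ∀ (v : ℝ → ℝ), Wgt v → 0 < ∫ x, v x → ∀ᶠ M in atTop, ∀ k : ℕ, ∀ᶠ T in atTop,
  EE v T (fun t => ‖CMy k M T t - ∑ i ∈ Finset.range (dM M + 1), (-SMd k M T t) ^ i / (i.factorial : ℂ)‖ ^ 2) ≤
    (1 / M) * ∫ x, v x

/-- [P1a] second moment of `S_M` -/
def P1S : Prop := ∀ (v : ℝ → ℝ), Wgt v → 0 < ∫ x, v x → ∀ M : ℕ, 3 ≤ M → ∀ k : ℕ, ∀ᶠ T in atTop,
  EE v T (fun t => ‖SMd k M T t‖ ^ 2) ≤ (2 + Real.log M) * ∫ x, v x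

/-- [P1b] second moment of `C_M` -/
def P1C : Prop := ∀ (v : ℝ → ℝ), Wgt v → 0 < ∫ x, v x → ∀ M : ℕ, 3 ≤ M → ∀ k : ℕ, ∀ᶠ T in atTop,
  EE v T (fun t => ‖CM k M T t‖ ^ 2) ≤ 4 * M * ∫ x, v x

/-- [MS] for most `t` some scale has `-X_M(t) ≥ λ_M` -/
def MS : Prop := ∀ (v : ℝ → ℝ), Wgt v → 0 < ∫ x, v x → ∀ η : ℝ, 0 < η → ∃ r M₀ : ℕ, 0 < r ∧ ∀ Ms : ℕ → ℕ, M₀ ≤ Ms 0 →
  (∀ i, Real.exp (Ms i) ≤ Ms (i + 1)) → ∀ k : ℕ, ∀ᶠ T in atTop,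
    Pr v T {t | ∀ i < r, -XM k (Ms i) T t < lamM (Ms i)} ≤ η

/-- [LAT] the exact lattice formula for `e^{-2πyξ}`, `0 ≤ ξ ≤ 1` -/
def LAT : Prop := ∀ (N : ℕ) (y b : ℝ), 2 ≤ N → 1 ≤ y → 1 / 4 ≤ b → b < 1 / 2 → ∃ w : ℤ → ℂ,
  (∀ m, ‖w m‖ ≤ 1) ∧ (∀ m, m ≠ 0 → ‖w m‖ ≤ (200 * N * y / |(m : ℝ)|) ^ N) ∧
  ∀ ξ ∈ Icc (0 : ℝ) 1, HasSum (fun m : ℤ => w m * Complex.exp (-((2 * π * ξ * b * m : ℝ) : ℂ) * Complex.I))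
    (Complex.exp (-((2 * π * y * ξ : ℝ) : ℂ)))

/-- [P4] moments of `log |V^{(m)}|`, uniformly in the window -/
def P4MOM (χ₀ : ℝ → ℝ) (D₀ : ℝ) : Prop := ∀ (v : ℝ → ℝ), Wgt v → ∀ q : ℕ, ∃ C : ℝ, 0 < C ∧ ∀ k m : ℕ, 1 ≤ m →
  ∀ᶠ T in atTop, EE v T (fun t => LV χ₀ D₀ k m T t ^ (2 * q)) ≤ C * (1 + Real.log m) ^ q

/-- [R2] if there is no zero in the window then `Re n(t)` is small, for most `t` -/
def R2NEAR (χ₀ : ℝ → ℝ) (D₀ : ℝ) : Prop := ∀ (v : ℝ → ℝ), Wgt v → ∀ η : ℝ, 0 < η → ∀ᶠ k in atTop, ∀ᶠ T in atTop,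
  ∃ Bad : Set ℝ, MeasurableSet Bad ∧ Pr v T Bad ≤ η ∧
    ∀ t, t ∉ Bad → (∀ i, hk k T < |t - gZ i|) → |(nn χ₀ D₀ k T t).re| ≤ η

/-- [PS] `C_M` is large at most `t` with `-X_M(t) ≥ λ_M` -/
def PSLOW : Prop := ∀ (l : Filter ℝ), l ≤ atTop → HypAH l →
  ∀ (v : ℝ → ℝ), WgtU v → 0 < ∫ x, v x → ∀ η : ℝ, 0 < η → ∀ᶠ M in atTop, ∀ᶠ k in atTop, ∀ᶠ T in l,
    Pr v T {t | lamM M ≤ -XM k M T t ∧ ‖CM k M T t‖ < Real.exp (lamM M / 5)} ≤ η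

/-- [S] one real function `a` with `N_Γ + (sign changes of a) ≥ 1` in most windows -/
def SMAIN (l : Filter ℝ) : Prop := ∀ δ : ℝ, 0 < δ → ∀ b₀ : ℝ, b₀ < 1 / 2 → ∃ b : ℝ, b₀ < b ∧ 0 < b ∧ b < 1 / 2 ∧
  ∃ θ : ℝ, 0 < θ ∧ θ < 1 ∧ ∃ c : ℝ, ∀ᶠ T in l, ∃ (X : DPoly) (ψ : ℝ) (Bad : Set ℝ),
    SuppLe (T ^ θ) X ∧ X.coeff 1 = 1 ∧ l1 X ≤ T ^ c ∧ MeasurableSet Bad ∧
    volume.real (Bad ∩ Icc (δ * T) ((1 - δ) * T)) ≤ δ * T ∧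
    ∀ t ∈ Icc (δ * T) ((1 - δ) * T), t ∉ Bad → (∀ i, π * b / Real.log T < |t - gZ i|) →
      aS b ψ X T (t - π * b / Real.log T) * aS b ψ X T (t + π * b / Real.log T) < 0

/-- [J] the Alternative Hypothesis values from [S] -/
def JMAIN : Prop := ∀ (l : Filter ℝ), l ≤ atTop → HypAH l → SMAIN l → ∀ α β : ℝ, α < β →
  (∀ j : ℤ, 2 * α ≠ j) → (∀ j : ℤ, 2 * β ≠ j) →
    Tendsto (fun T => PC.pairCount T α β / PC.norm T) l (𝓝 (sumAH α β))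

end Pool.Agent.H29.AH
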